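import Mathlib

/-!
# The maps `C_q`, with `q` as the variable

`C q n` is the largest odd divisor of `q n + 1`, `expo q m j` is the total number of halvings in the
first `j` steps from `m`.
-/

namespace Pool.Agent.Lib.MP_d88d68_nt

open Finset

/-- `C_q(n)`: the largest odd divisor of `q n + 1`. -/
def C (q n : ℕ) : ℕ := (q * n + 1) / 2 ^ padicValNat 2 (q * n + 1)

/-- `E_j`: the sum of the exponents of `2` in `q C_q^i(m) + 1`, `i < j`. -/
def expo (q m j : ℕ) : ℕ := ∑ i ∈ range j, padicValNat 2 (q * (C q)^[i] m + 1)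

theorem C_spec (q n : ℕ) : 2 ^ padicValNat 2 (q * n + 1) * C q n = q * n + 1 :=
  Nat.mul_div_cancel' pow_padicValNat_dvd

theorem C_odd (q n : ℕ) : Odd (C q n) := by
  rw [← Nat.not_even_iff_odd, even_iff_two_dvd]
  intro h
  have h1 : 2 ^ (padicValNat 2 (q * n + 1) + 1) ∣
      2 ^ padicValNat 2 (q * n + 1) * C q n := by
    rw [pow_succ]
    exact Nat.mul_dvd_mul_left _ h
  rw [C_spec] at h1
  exact pow_succ_padicValNat_not_dvd (Nat.succ_ne_zero _) h1

theorem iter_odd {q m : ℕ} (hm : Odd m) (i : ℕ) : Odd ((C q)^[i] m) := by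
  cases i with
  | zero => exact hm
  | succ i => rw [Function.iterate_succ_apply']; exact C_odd _ _

theorem expo_zero (q m : ℕ) : expo q m 0 = 0 := by simp [expo]

theorem expo_succ (q m j : ℕ) :
    expo q m (j + 1) = expo q m j + padicValNat 2 (q * (C q)^[j] m + 1) := by
  simp [expo, sum_range_succ]

theorem step_pos {q n : ℕ} (hq : Odd q) (hn : Odd n) : 1 ≤ padicValNat 2 (q * n + 1) := by
  apply one_le_padicValNat_of_dvd (Nat.succ_ne_zero _)
  exact (hq.mul hn).add_one.two_dvd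

theorem expo_lt_succ {q m : ℕ} (hq : Odd q) (hm : Odd m) (j : ℕ) :
    expo q m j < expo q m (j + 1) := by
  rw [expo_succ]
  have := step_pos hq (iter_odd (q := q) hm j)
  omega

theorem expo_strictMono {q m : ℕ} (hq : Odd q) (hm : Odd m) : StrictMono (expo q m) :=
  strictMono_nat_of_lt_succ (expo_lt_succ hq hm)

theorem le_expo {q m : ℕ} (hq : Odd q) (hm : Odd m) (j : ℕ) : j ≤ expo q m j :=
  (expo_strictMono hq hm).le_apply

theorem rec_eq (q m j : ℕ) :
    2 ^ expo q m (j + 1) * (C q)^[j + 1] m = 2 ^ expo q m j * (q * (C q)^[j] m + 1) := by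
  rw [expo_succ, pow_add, Function.iterate_succ_apply', mul_assoc, C_spec]

theorem growth_le (q m j : ℕ) : q ^ j * m ≤ 2 ^ expo q m j * (C q)^[j] m := by
  induction j with
  | zero => simp [expo]
  | succ j ih =>
    rw [rec_eq, pow_succ]
    calc q ^ j * q * m = q * (q ^ j * m) := by ring
      _ ≤ q * (2 ^ expo q m j * (C q)^[j] m) := Nat.mul_le_mul_left _ ih
      _ = 2 ^ expo q m j * (q * (C q)^[j] m) := by ring
      _ ≤ _ := Nat.mul_le_mul_left _ (Nat.le_succ _)

theorem growth_lt (q m j : ℕ) : q ^ (j + 1) * m < 2 ^ expo q m (j + 1) * (C q)^[j + 1] m := by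
  rw [rec_eq, pow_succ]
  calc q ^ j * q * m = q * (q ^ j * m) := by ring
    _ ≤ q * (2 ^ expo q m j * (C q)^[j] m) := Nat.mul_le_mul_left _ (growth_le q m j)
    _ = 2 ^ expo q m j * (q * (C q)^[j] m) := by ring
    _ < _ := Nat.mul_lt_mul_of_pos_left (Nat.lt_succ_self _) (by positivity)

/-- The set of the values `E_j` in `[1, N - 1]`. -/
noncomputable def sums (q m N : ℕ) : Finset ℕ := by
  classical exact (Ico 1 N).filter fun t => ∃ j, expo q m j = t

theorem mem_sums {q m N t : ℕ} : t ∈ sums q m N ↔ (1 ≤ t ∧ t < N) ∧ ∃ j, expo q m j = t := by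
  simp [sums]

/-- The first `j` sums agree and the trajectories are `2`-adically as close as `q` and `q'`. -/
def Inv (q q' m j : ℕ) : Prop :=
  expo q m j = expo q' m j ∧ ∃ D : ℤ,
    2 ^ expo q m j * (((C q)^[j] m : ℤ) - ((C q')^[j] m : ℤ)) = ((q : ℤ) - q') * D ∧
    Odd (2 ^ expo q m j * ((C q)^[j] m : ℤ) + q' * D)

theorem inv_zero {q q' m : ℕ} (hm : Odd m) : Inv q q' m 0 := by
  refine ⟨by simp [expo], 0, by simp, ?_⟩
  simpa [expo] using hm

/-- `2 ^ E_j (q m_j - q' m_j')` is `q - q'` times an odd number. -/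
theorem inv_diff {q q' m j : ℕ} (h : Inv q q' m j) : ∃ D : ℤ, Odd D ∧
    2 ^ expo q m j * ((q : ℤ) * ((C q)^[j] m : ℤ) - q' * ((C q')^[j] m : ℤ)) =
      ((q : ℤ) - q') * D := by
  obtain ⟨_, D, h1, h2⟩ := h
  refine ⟨_, h2, ?_⟩
  linear_combination (q' : ℤ) * h1

theorem inv_succ {q q' m j : ℕ} (hq : Odd q) (hq' : Odd q') (hm : Odd m) (h : Inv q q' m j)
    (he : expo q m (j + 1) = expo q' m (j + 1)) : Inv q q' m (j + 1) := by
  obtain ⟨D, hD, h1⟩ := inv_diff h
  refine ⟨he, D, ?_, ?_⟩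
  · have r1 := rec_eq q m j
    have r2 := rec_eq q' m j
    rw [← he, ← h.1] at r2
    zify at r1 r2
    linear_combination r1 - r2 + h1
  · apply Even.add_odd
    · apply Even.mul_right
      apply Even.pow_of_ne_zero
      · exact even_two
      · have := expo_lt_succ hq hm j
        omega
    · exact (by exact_mod_cast hq' : Odd (q' : ℤ)).mul hD

/-- Equality of the sums propagates. -/
theorem expo_eq_of_sums {q q' m N j : ℕ} (hq : Odd q) (hq' : Odd q') (hm : Odd m)
    (hS : sums q m N = sums q' m N) (he : expo q m j = expo q' m j)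
    (hlt : expo q m (j + 1) < N) : expo q' m (j + 1) ≤ expo q m (j + 1) := by
  have h1 : expo q m (j + 1) ∈ sums q m N :=
    mem_sums.2 ⟨⟨(by have := expo_lt_succ hq hm j; omega), hlt⟩, _, rfl⟩
  rw [hS, mem_sums] at h1
  obtain ⟨_, i, hi⟩ := h1
  have h2 : expo q' m j < expo q' m i := by
    rw [hi, ← he]; exact expo_lt_succ hq hm j
  have h3 : j < i := (expo_strictMono hq' hm).lt_iff_lt.1 h2
  rw [← hi]
  exact (expo_strictMono hq' hm).monotone h3

theorem inv_of_sums {q q' m N : ℕ} (hq : Odd q) (hq' : Odd q') (hm : Odd m)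
    (hS : sums q m N = sums q' m N) (j : ℕ) (hlt : expo q m j < N) : Inv q q' m j := by
  induction j with
  | zero => exact inv_zero hm
  | succ j ih =>
    have h1 := ih ((expo_lt_succ hq hm j).trans hlt)
    refine inv_succ hq hq' hm h1 ?_
    have h2 := expo_eq_of_sums hq hq' hm hS h1.1 hlt
    exact le_antisymm (expo_eq_of_sums hq' hq hm hS.symm h1.1.symm (h2.trans_lt hlt)) h2

/-- For odd `m` the sums `E_j < N` determine `q` modulo `2 ^ N`. -/
theorem eq_of_sums {q q' m N : ℕ} (hq : Odd q) (hq' : Odd q') (hm : Odd m) (hqN : q < 2 ^ N)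
    (hqN' : q' < 2 ^ N) (hS : sums q m N = sums q' m N) : q = q' := by
  have hN : 0 < N := by
    rcases Nat.eq_zero_or_pos N with h | h
    · subst h
      have := hq.pos
      simp at hqN
      omega
    · exact h
  -- the first `n` with `E_n ≥ N`
  obtain ⟨n, hn, hmin⟩ : ∃ n, N ≤ expo q m n ∧ ∀ k < n, expo q m k < N := by
    classical
    have h : ∃ n, N ≤ expo q m n := ⟨N, le_expo hq hm N⟩
    exact ⟨Nat.find h, Nat.find_spec h, fun k hk => not_le.1 (Nat.find_min h hk)⟩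
  obtain ⟨j, rfl⟩ : ∃ j, n = j + 1 := by
    refine Nat.exists_eq_succ_of_ne_zero ?_
    rintro rfl
    rw [expo_zero] at hn
    omega
  have hI := inv_of_sums hq hq' hm hS j (hmin j (Nat.lt_succ_self j))
  have hn' : N ≤ expo q' m (j + 1) := by
    by_contra hcon
    push Not at hcon
    have := expo_eq_of_sums hq' hq hm hS.symm hI.1.symm hcon
    omega
  obtain ⟨D, hD, hd⟩ := inv_diff hI
  have r1 := rec_eq q m j
  have r2 := rec_eq q' m j
  rw [← hI.1] at r2
  have d1 : (2 : ℤ) ^ N ∣ 2 ^ expo q m j * ((q : ℤ) * ((C q)^[j] m : ℤ) + 1) := by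
    have : (2 : ℤ) ^ N ∣ 2 ^ expo q m (j + 1) * ((C q)^[j + 1] m : ℤ) :=
      Dvd.dvd.mul_right (pow_dvd_pow _ hn) _
    have e : (2 : ℤ) ^ expo q m (j + 1) * ((C q)^[j + 1] m : ℤ) =
        2 ^ expo q m j * ((q : ℤ) * ((C q)^[j] m : ℤ) + 1) := by exact_mod_cast r1
    rwa [e] at this
  have d2 : (2 : ℤ) ^ N ∣ 2 ^ expo q m j * ((q' : ℤ) * ((C q')^[j] m : ℤ) + 1) := by
    have : (2 : ℤ) ^ N ∣ 2 ^ expo q' m (j + 1) * ((C q')^[j + 1] m : ℤ) :=
      Dvd.dvd.mul_right (pow_dvd_pow _ hn') _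
    have e : (2 : ℤ) ^ expo q' m (j + 1) * ((C q')^[j + 1] m : ℤ) =
        2 ^ expo q m j * ((q' : ℤ) * ((C q')^[j] m : ℤ) + 1) := by exact_mod_cast r2
    rwa [e] at this
  have d3 : (2 : ℤ) ^ N ∣ ((q : ℤ) - q') * D := by
    rw [← hd]
    have e : (2 : ℤ) ^ expo q m j * ((q : ℤ) * ((C q)^[j] m : ℤ) - q' * ((C q')^[j] m : ℤ)) =
        2 ^ expo q m j * ((q : ℤ) * ((C q)^[j] m : ℤ) + 1) -
          2 ^ expo q m j * ((q' : ℤ) * ((C q')^[j] m : ℤ) + 1) := by ring
    rw [e]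
    exact dvd_sub d1 d2
  have hcop : IsCoprime ((2 : ℤ) ^ N) D := by
    apply IsCoprime.pow_left
    obtain ⟨k, hk⟩ := hD
    exact ⟨-k, 1, by rw [hk]; ring⟩
  have d4 := hcop.dvd_of_dvd_mul_right d3
  have h5 : |(q : ℤ) - q'| < 2 ^ N := by
    rw [abs_lt]
    have a1 : (q : ℤ) < 2 ^ N := by exact_mod_cast hqN
    have a2 : (q' : ℤ) < 2 ^ N := by exact_mod_cast hqN'
    constructor <;> linarith [Int.natCast_nonneg q, Int.natCast_nonneg q']
  have h6 := Int.eq_zero_of_abs_lt_dvd d4 h5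
  have : (q : ℤ) = q' := by linarith
  exact_mod_cast this

end Pool.Agent.Lib.MP_d88d68_nt
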