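import Pool.Agent.Lib.MP_d88d68_nt.Basic

/-!
# Counting the odd `q < 2 ^ N` by the exponents of the trajectory of a fixed `m`
-/

namespace Pool.Agent.Lib.MP_d88d68_nt

open Finset

/-- The odd numbers below `2 ^ N`, `N ≥ 1`. -/
theorem sums_subset (q m N : ℕ) : sums q m N ⊆ Ico 1 N := fun t ht => by
  rw [mem_sums] at ht; exact mem_Ico.2 ht.1

/-- Every set of sums occurs for exactly one odd `q < 2 ^ N`. -/
theorem exists_unique_q {m N : ℕ} (hm : Odd m) (hN : 1 ≤ N) (S : Finset ℕ) (hS : S ⊆ Ico 1 N) :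
    ∃! q : ℕ, Odd q ∧ q < 2 ^ N ∧ ∀ t ∈ Ico 1 N, (t ∈ S ↔ ∃ j, expo q m j = t) := by
  classical
  obtain ⟨N, rfl⟩ := Nat.exists_eq_add_of_le' hN
  let f : ℕ → Finset ℕ := fun t => sums (2 * t + 1) m (N + 1)
  have hodd : ∀ t, Odd (2 * t + 1) := fun t => odd_two_mul_add_one t
  have hlt : ∀ t ∈ range (2 ^ N), 2 * t + 1 < 2 ^ (N + 1) := by
    intro t ht
    rw [mem_range] at ht
    rw [pow_succ]; omega
  have hinj : Set.InjOn f (range (2 ^ N) : Set ℕ) := by
    intro a ha b hb hab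
    have := eq_of_sums (hodd a) (hodd b) hm (hlt a ha) (hlt b hb) hab
    omega
  have himg : (range (2 ^ N)).image f = (Ico 1 (N + 1)).powerset := by
    apply Finset.eq_of_subset_of_card_le
    · intro s hs
      obtain ⟨t, _, rfl⟩ := mem_image.1 hs
      exact mem_powerset.2 (sums_subset _ _ _)
    · rw [card_powerset, card_image_of_injOn hinj, card_range, Nat.card_Ico]
      simp
  have hmem : S ∈ (range (2 ^ N)).image f := by
    rw [himg]; exact mem_powerset.2 hS
  obtain ⟨t, ht, hft⟩ := mem_image.1 hmem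
  refine ⟨2 * t + 1, ⟨hodd t, hlt t ht, ?_⟩, ?_⟩
  · intro x hx
    rw [← hft]
    show x ∈ sums _ _ _ ↔ _
    rw [mem_sums]
    have := mem_Ico.1 hx
    exact ⟨fun h => h.2, fun h => ⟨this, h⟩⟩
  · rintro q ⟨hq, hqN, h⟩
    refine eq_of_sums hq (hodd t) hm hqN (hlt t ht) ?_
    show _ = f t
    rw [hft]
    ext x
    rw [mem_sums]
    constructor
    · rintro ⟨h1, h2⟩
      exact (h x (mem_Ico.2 h1)).2 h2
    · intro h1
      have h2 := hS h1
      exact ⟨mem_Ico.1 h2, (h x h2).1 h1⟩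

/-- If `E_{K+1} ≥ N` there are at most `K` sums below `N`. -/
theorem card_sums_le {q m N K : ℕ} (hq : Odd q) (hm : Odd m) (h : N ≤ expo q m (K + 1)) :
    (sums q m N).card ≤ K := by
  classical
  have h1 : sums q m N ⊆ (Ico 1 (K + 1)).image (expo q m) := by
    intro t ht
    rw [mem_sums] at ht
    obtain ⟨⟨h1, h2⟩, j, rfl⟩ := ht
    refine mem_image.2 ⟨j, mem_Ico.2 ⟨?_, ?_⟩, rfl⟩
    · rcases Nat.eq_zero_or_pos j with h3 | h3
      · subst h3; rw [expo_zero] at h1; omega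
      · exact h3
    · exact (expo_strictMono hq hm).lt_iff_lt.1 (h2.trans_le h)
  refine (card_le_card h1).trans (card_image_le.trans ?_)
  simp

/-- The number of odd `q < 2 ^ N` for which `E_{K+1} ≥ N`. -/
theorem card_few_steps {m : ℕ} (hm : Odd m) (N K : ℕ) (s : Finset ℕ)
    (hs : ∀ q ∈ s, Odd q ∧ q < 2 ^ (N + 1) ∧ N + 1 ≤ expo q m (K + 1)) :
    s.card ≤ ∑ i ∈ range (K + 1), N.choose i := by
  classical
  have h1 : s.card ≤ ((Ico 1 (N + 1)).powerset.filter fun t => t.card ≤ K).card := by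
    refine card_le_card_of_injOn (fun q => sums q m (N + 1)) ?_ ?_
    · intro q hq
      have h := hs q hq
      simp only [coe_filter, mem_powerset, Set.mem_ofPred_eq]
      exact ⟨sums_subset _ _ _, card_sums_le h.1 hm h.2.2⟩
    · intro a ha b hb hab
      exact eq_of_sums (hs a ha).1 (hs b hb).1 hm (hs a ha).2.1 (hs b hb).2.1 hab
  refine h1.trans ?_
  have h2 : ((Ico 1 (N + 1)).powerset.filter fun t => t.card ≤ K) ⊆
      (range (K + 1)).biUnion fun i => powersetCard i (Ico 1 (N + 1)) := by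
    intro t ht
    rw [mem_filter, mem_powerset] at ht
    rw [mem_biUnion]
    exact ⟨t.card, mem_range.2 (Nat.lt_succ_of_le ht.2), mem_powersetCard.2 ⟨ht.1, rfl⟩⟩
  refine (card_le_card h2).trans (card_biUnion_le.trans ?_)
  refine sum_le_sum fun i _ => ?_
  rw [card_powersetCard]
  simp

/-- A trajectory which stays below `m q ^ K` makes at most `K` steps before `E_j ≥ L`, if
`q ≥ 2 ^ (L - 1)`. -/
theorem le_expo_of_bounded {q m K L : ℕ} (hq : 2 ^ L ≤ q)
    (h : (C q)^[K + 1] m ≤ m * q ^ K) : L + 1 ≤ expo q m (K + 1) := by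
  by_contra hcon
  push Not at hcon
  have h1 := growth_lt q m K
  have h2 : 2 ^ expo q m (K + 1) ≤ 2 ^ L := Nat.pow_le_pow_right (by norm_num) (by omega)
  have h3 : q ^ (K + 1) * m < 2 ^ L * (m * q ^ K) :=
    h1.trans_le (Nat.mul_le_mul h2 h)
  have h4 : 2 ^ L * (m * q ^ K) ≤ q ^ (K + 1) * m := by
    calc 2 ^ L * (m * q ^ K) ≤ q * (m * q ^ K) := Nat.mul_le_mul_right _ hq
      _ = _ := by ring
  omega

/-- Part (1): at most `∑_{1 ≤ i ≤ K+1} N.choose i` of the odd `q < 2 ^ N` keep the trajectory of `m`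
below `m q ^ K`. -/
theorem card_bounded {m : ℕ} (hm : Odd m) (K N : ℕ) (s : Finset ℕ)
    (hs : ∀ q ∈ s, Odd q ∧ q < 2 ^ N ∧ (C q)^[K + 1] m ≤ m * q ^ K) :
    s.card ≤ ∑ i ∈ range (K + 1), N.choose (i + 1) := by
  classical
  induction N generalizing s with
  | zero =>
    have : s = ∅ := by
      apply eq_empty_of_forall_notMem
      intro q hq
      have := (hs q hq).1.pos
      have := (hs q hq).2.1
      simp at this
      omega
    rw [this]; simp
  | succ N ih =>
    have h1 : s.card = (s.filter fun q => q < 2 ^ N).card + (s.filter fun q => ¬ q < 2 ^ N).card :=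
      (card_filter_add_card_filter_not _).symm
    have h2 := ih (s.filter fun q => q < 2 ^ N) (by
      intro q hq
      rw [mem_filter] at hq
      exact ⟨(hs q hq.1).1, hq.2, (hs q hq.1).2.2⟩)
    have h3 := card_few_steps hm N K (s.filter fun q => ¬ q < 2 ^ N) (by
      intro q hq
      rw [mem_filter, not_lt] at hq
      exact ⟨(hs q hq.1).1, (hs q hq.1).2.1, le_expo_of_bounded hq.2 (hs q hq.1).2.2⟩)
    rw [h1]
    refine (Nat.add_le_add h2 h3).trans ?_
    rw [← sum_add_distrib]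
    refine sum_le_sum fun i _ => ?_
    rw [Nat.choose_succ_succ, add_comm]

/-- The product formula: along a cycle `q ^ n < 2 ^ E_n ≤ (q + 1) ^ n`. -/
theorem cycle_bounds {q m n : ℕ} (hm : Odd m) (hn : 1 ≤ n) (h : (C q)^[n] m = m) :
    q ^ n < 2 ^ expo q m n ∧ 2 ^ expo q m n ≤ (q + 1) ^ n := by
  have hpos : ∀ i, 0 < (C q)^[i] m := fun i => (iter_odd hm i).pos
  have hprod : ∀ k, 2 ^ expo q m k * ∏ i ∈ range k, (C q)^[i + 1] m =
      ∏ i ∈ range k, (q * (C q)^[i] m + 1) := by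
    intro k
    induction k with
    | zero => simp [expo]
    | succ k ih =>
      rw [prod_range_succ, prod_range_succ, ← ih, expo_succ, pow_add,
        Function.iterate_succ_apply']
      have := C_spec q ((C q)^[k] m)
      calc _ = (2 ^ expo q m k * ∏ i ∈ range k, (C q)^[i + 1] m) *
            (2 ^ padicValNat 2 (q * (C q)^[k] m + 1) * C q ((C q)^[k] m)) := by ring
        _ = _ := by rw [this]
  have hshift : ∏ i ∈ range n, (C q)^[i + 1] m = ∏ i ∈ range n, (C q)^[i] m := by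
    have h1 := prod_range_succ (fun i => (C q)^[i] m) n
    have h2 := prod_range_succ' (fun i => (C q)^[i] m) n
    rw [h1] at h2
    simp only [Function.iterate_zero, id_eq] at h2
    rw [h] at h2
    exact (Nat.eq_of_mul_eq_mul_right hm.pos h2).symm
  have hP : 0 < ∏ i ∈ range n, (C q)^[i] m := prod_pos fun i _ => hpos i
  have h1 := hprod n
  rw [hshift] at h1
  have hlow : q ^ n * ∏ i ∈ range n, (C q)^[i] m < ∏ i ∈ range n, (q * (C q)^[i] m + 1) := by
    have e : q ^ n * ∏ i ∈ range n, (C q)^[i] m = ∏ i ∈ range n, (q * (C q)^[i] m) := by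
      rw [prod_mul_distrib, prod_const, card_range]
    rw [e]
    rcases Nat.eq_zero_or_pos q with hq | hq
    · subst hq
      simp only [zero_mul, prod_const, card_range, zero_add, one_pow]
      rw [zero_pow (by omega)]
      exact one_pos
    · refine prod_lt_prod_of_nonempty (fun i _ => Nat.mul_pos hq (hpos i))
        (fun i _ => Nat.lt_succ_self _) ⟨0, mem_range.2 hn⟩
  have hup : ∏ i ∈ range n, (q * (C q)^[i] m + 1) ≤
      (q + 1) ^ n * ∏ i ∈ range n, (C q)^[i] m := by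
    have e : (q + 1) ^ n * ∏ i ∈ range n, (C q)^[i] m =
        ∏ i ∈ range n, ((q + 1) * (C q)^[i] m) := by
      rw [prod_mul_distrib, prod_const, card_range]
    rw [e]
    refine prod_le_prod' fun i _ => ?_
    have := hpos i
    nlinarith
  rw [← h1] at hlow hup
  exact ⟨lt_of_mul_lt_mul_right hlow (Nat.zero_le _), le_of_mul_le_mul_right hup hP⟩

/-- Part (2): at most `N n₀ (n₀ + 1) / 2` of the odd `q < 2 ^ N` have a cycle of length `≤ n₀`. -/
theorem card_cycles (N n₀ : ℕ) (s : Finset ℕ)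
    (hs : ∀ q ∈ s, Odd q ∧ q < 2 ^ N ∧
      ∃ n m, 1 ≤ n ∧ n ≤ n₀ ∧ Odd m ∧ (C q)^[n] m = m) :
    s.card ≤ N * (n₀ * (n₀ + 1) / 2) := by
  classical
  have h1 : ∀ q ∈ s, ∃ p : ℕ × ℕ, (1 ≤ p.1 ∧ p.1 ≤ n₀) ∧ (1 ≤ p.2 ∧ p.2 ≤ p.1 * N) ∧
      q ^ p.1 < 2 ^ p.2 ∧ 2 ^ p.2 ≤ (q + 1) ^ p.1 := by
    intro q hq
    obtain ⟨hq1, hqN, n, m, hn1, hn2, hm, hc⟩ := hs q hq
    obtain ⟨h2, h3⟩ := cycle_bounds hm hn1 hc
    refine ⟨(n, expo q m n), ⟨hn1, hn2⟩, ⟨?_, ?_⟩, h2, h3⟩
    · by_contra hcon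
      have h0 : expo q m n = 0 := by
        have : ¬ 1 ≤ expo q m n := hcon
        omega
      rw [h0, pow_zero] at h2
      have := Nat.one_le_pow n q hq1.pos
      omega
    · have h4 : 2 ^ expo q m n ≤ 2 ^ (n * N) := by
        refine h3.trans ?_
        rw [mul_comm, pow_mul]
        exact Nat.pow_le_pow_left hqN n
      exact (Nat.pow_le_pow_iff_right (by norm_num)).1 h4
  choose! g hg using h1
  have h2 : s.card ≤ ((Icc 1 n₀).sigma fun n => Icc 1 (n * N)).card := by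
    refine card_le_card_of_injOn (fun q => ⟨(g q).1, (g q).2⟩) ?_ ?_
    · intro q hq
      obtain ⟨h3, h4, _⟩ := hg q hq
      simp only [coe_sigma, Set.mem_sigma_iff, coe_Icc, Set.mem_Icc]
      exact ⟨h3, h4⟩
    · intro a ha b hb hab
      obtain ⟨_, _, a1, a2⟩ := hg a ha
      obtain ⟨_, _, b1, b2⟩ := hg b hb
      simp only [Sigma.mk.injEq, heq_eq_eq] at hab
      rw [hab.1, hab.2] at a1 a2
      have key : ∀ x y k l : ℕ, x ^ k < 2 ^ l → 2 ^ l ≤ (y + 1) ^ k → x ≤ y := by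
        intro x y k l h5 h6
        by_contra hcon
        push Not at hcon
        have : (y + 1) ^ k ≤ x ^ k := Nat.pow_le_pow_left hcon k
        omega
      exact le_antisymm (key _ _ _ _ a1 b2) (key _ _ _ _ b1 a2)
  refine h2.trans ?_
  rw [card_sigma]
  simp only [Nat.card_Icc, add_tsub_cancel_right]
  rw [← sum_mul, mul_comm]
  refine Nat.mul_le_mul_left _ ?_
  have h3 : ∑ i ∈ Icc 1 n₀, i ≤ ∑ i ∈ range (n₀ + 1), i := by
    refine sum_le_sum_of_subset fun i hi => ?_
    rw [mem_Icc] at hi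
    exact mem_range.2 (by omega)
  refine h3.trans ?_
  rw [sum_range_id, add_tsub_cancel_right, mul_comm]

end Pool.Agent.Lib.MP_d88d68_nt
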