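import Mathlib

/-!
# Integers which are `2`-adically close to a polynomial with a large coefficient are not small

If the integers `z_i` agree modulo `2 ^ T` with the values `G(x_i)` at `u + 1` distinct points of
`[0, 2 ^ h)`, and the divided difference of `G` of order `u` is exactly divisible by `2 ^ (R u)`, then
the `z_i` cannot all be small (Vandermonde determinants).
-/

namespace Pool.Agent.Lib.MP_d88d68_nt

open Finset Matrix Polynomial

theorem sum_card_Ioi (u : ℕ) : ∑ i : Fin u, (Ioi i).card = u.choose 2 := by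
  induction u with
  | zero => simp
  | succ u ih =>
    rw [Fin.sum_univ_succ]
    have h1 : ∀ i : Fin u, (Ioi i.succ).card = (Ioi i).card := fun i => by
      rw [Fin.card_Ioi, Fin.card_Ioi, Fin.val_succ]; omega
    simp only [h1, ih]
    rw [Fin.card_Ioi, Nat.choose_succ_succ' u 1, Nat.choose_one_right]
    simp

theorem abs_det_vandermonde_le {u h : ℕ} (x : Fin u → ℤ) (hx : ∀ i, 0 ≤ x i ∧ x i < 2 ^ h) :
    |(vandermonde x).det| ≤ 2 ^ (h * u.choose 2) := by
  rw [det_vandermonde, abs_prod]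
  have h1 : ∀ i : Fin u, |∏ j ∈ Ioi i, (x j - x i)| ≤ 2 ^ (h * (Ioi i).card) := by
    intro i
    rw [abs_prod]
    calc ∏ j ∈ Ioi i, |x j - x i| ≤ ∏ j ∈ Ioi i, (2 : ℤ) ^ h := by
          apply prod_le_prod
          · intro j _; exact abs_nonneg _
          · intro j _
            have := hx i
            have := hx j
            rw [abs_le]
            constructor <;> linarith
      _ = _ := by rw [prod_const, ← pow_mul]
  calc ∏ i, |∏ j ∈ Ioi i, (x j - x i)| ≤ ∏ i : Fin u, (2 : ℤ) ^ (h * (Ioi i).card) :=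
        prod_le_prod (fun i _ => abs_nonneg _) fun i _ => h1 i
    _ = 2 ^ (∑ i : Fin u, h * (Ioi i).card) := (prod_pow_eq_pow_sum _ _ _)
    _ = _ := by rw [← mul_sum, sum_card_Ioi]

section cof

variable {u : ℕ} (x : Fin (u + 1) → ℤ)

/-- The cofactors of the last column of the Vandermonde matrix. -/
def cof (i : Fin (u + 1)) : ℤ := (vandermonde x).adjugate (Fin.last u) i

theorem abs_cof_le {h : ℕ} (hx : ∀ i, 0 ≤ x i ∧ x i < 2 ^ h) (i : Fin (u + 1)) :
    |cof x i| ≤ 2 ^ (h * u.choose 2) := by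
  unfold cof
  rw [adjugate_fin_succ_eq_det_submatrix, abs_mul, abs_pow, abs_neg, abs_one, one_pow, one_mul]
  have e : (vandermonde x).submatrix i.succAbove (Fin.last u).succAbove =
      vandermonde (x ∘ i.succAbove) := by
    ext a b
    simp [vandermonde_apply]
  rw [e]
  exact abs_det_vandermonde_le _ fun j => hx _

theorem sum_cof (P : ℤ[X]) (hP : P.degree < (u + 1 : ℕ)) :
    ∑ i, cof x i * P.eval (x i) = (vandermonde x).det * P.coeff u := by
  have hnat : P.natDegree < u + 1 := by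
    rcases eq_or_ne P 0 with h | h
    · rw [h, natDegree_zero]; omega
    · exact (natDegree_lt_iff_degree_lt h).2 hP
  have h1 : (vandermonde x) *ᵥ (fun j : Fin (u + 1) => P.coeff j) = fun i => P.eval (x i) := by
    ext i
    rw [mulVec, dotProduct, Polynomial.eval_eq_sum_range' hnat (x i), ← Fin.sum_univ_eq_sum_range
      (fun j => P.coeff j * x i ^ j)]
    exact sum_congr rfl fun j _ => by rw [vandermonde_apply, mul_comm]
  have h2 : (vandermonde x).adjugate *ᵥ (fun i => P.eval (x i)) =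
      (vandermonde x).det • fun j : Fin (u + 1) => P.coeff j := by
    rw [← h1, mulVec_mulVec, adjugate_mul, smul_mulVec, one_mulVec]
  have h3 := congrFun h2 (Fin.last u)
  simp only [mulVec, dotProduct, Pi.smul_apply, smul_eq_mul, Fin.val_last] at h3
  exact h3

theorem cof_mul (i : Fin (u + 1)) :
    cof x i * ∏ j ∈ univ.erase i, (x i - x j) = (vandermonde x).det := by
  classical
  set P : ℤ[X] := ∏ j ∈ univ.erase i, (X - C (x j)) with hP
  have hmon : P.Monic := monic_prod_of_monic _ _ fun j _ => monic_X_sub_C _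
  have hdeg : P.natDegree = u := by
    rw [hP, natDegree_prod_of_monic _ _ fun j _ => monic_X_sub_C _,
      sum_congr rfl fun j _ => natDegree_X_sub_C (x j), sum_const, card_erase_of_mem (mem_univ _)]
    simp
  have h1 := sum_cof x P (by
    rw [degree_eq_natDegree hmon.ne_zero, hdeg]
    exact_mod_cast Nat.lt_succ_self u)
  have h2 : P.coeff u = 1 := by
    have := hmon.coeff_natDegree
    rwa [hdeg] at this
  rw [h2, mul_one] at h1
  rw [← h1, sum_eq_single i]
  · rw [hP, eval_prod]; simp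
  · intro j _ hj
    have : P.eval (x j) = 0 := by
      rw [hP, eval_prod]
      apply prod_eq_zero (mem_erase.2 ⟨hj, mem_univ _⟩)
      simp
    rw [this, mul_zero]
  · intro h; exact absurd (mem_univ _) h

/-- For every integer polynomial the sum is divisible by the determinant. -/
theorem dvd_sum_cof (H : ℤ[X]) : ∃ c : ℤ, ∑ i, cof x i * H.eval (x i) = (vandermonde x).det * c := by
  classical
  set Q : ℤ[X] := ∏ j, (X - C (x j)) with hQ
  have hmon : Q.Monic := monic_prod_of_monic _ _ fun j _ => monic_X_sub_C _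
  have hdeg : Q.natDegree = u + 1 := by
    rw [hQ, natDegree_prod_of_monic _ _ fun j _ => monic_X_sub_C _,
      sum_congr rfl fun j _ => natDegree_X_sub_C (x j), sum_const]
    simp
  refine ⟨(H %ₘ Q).coeff u, ?_⟩
  rw [← sum_cof x (H %ₘ Q)]
  · refine sum_congr rfl fun i _ => ?_
    congr 1
    have h1 : Q.eval (x i) = 0 := by
      rw [hQ, eval_prod]
      apply prod_eq_zero (mem_univ i)
      simp
    have h2 := congrArg (fun p : ℤ[X] => p.eval (x i)) (modByMonic_add_div H Q)
    simp only [eval_add, eval_mul, h1, zero_mul, add_zero] at h2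
    exact h2.symm
  · have h1 := degree_modByMonic_lt H hmon
    rwa [degree_eq_natDegree hmon.ne_zero, hdeg] at h1

end cof

theorem padicValInt_prod_le {ι : Type*} (t : Finset ι) (g : ι → ℤ) (h : ℕ)
    (hg : ∀ j ∈ t, g j ≠ 0 ∧ |g j| < 2 ^ h) :
    padicValInt 2 (∏ j ∈ t, g j) ≤ (h - 1) * t.card := by
  classical
  induction t using Finset.induction_on with
  | empty => simp
  | insert a t ha ih =>
    rw [prod_insert ha, card_insert_of_notMem ha]
    have h1 := hg a (mem_insert_self a t)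
    have h2 : ∀ j ∈ t, g j ≠ 0 ∧ |g j| < 2 ^ h := fun j hj => hg j (mem_insert_of_mem hj)
    rw [padicValInt.mul h1.1 (prod_ne_zero_iff.2 fun j hj => (h2 j hj).1)]
    have h3 : padicValInt 2 (g a) < h := by
      have h4 : ((2 : ℕ) : ℤ) ^ padicValInt 2 (g a) ∣ g a := padicValInt_dvd _
      have h5 := Int.le_of_dvd (abs_pos.2 h1.1) ((dvd_abs _ _).2 h4)
      have h6 : (2 : ℤ) ^ padicValInt 2 (g a) < 2 ^ h := by
        have := h5.trans_lt h1.2
        exact_mod_cast this
      exact (pow_lt_pow_iff_right₀ (by norm_num : (1 : ℤ) < 2)).1 h6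
    have h7 := ih h2
    rw [mul_add, mul_one]
    omega

theorem le_of_pow_dvd_prod {ι : Type*} (t : Finset ι) (g : ι → ℤ) (h f : ℕ)
    (hg : ∀ j ∈ t, g j ≠ 0 ∧ |g j| < 2 ^ h) (hf : (2 : ℤ) ^ f ∣ ∏ j ∈ t, g j) :
    f ≤ (h - 1) * t.card := by
  have h1 : ((2 : ℕ) : ℤ) ^ f ∣ ∏ j ∈ t, g j := by exact_mod_cast hf
  rw [padicValInt_dvd_iff] at h1
  rcases h1 with h1 | h1
  · exact absurd h1 (prod_ne_zero_iff.2 fun j hj => (hg j hj).1)
  · exact h1.trans (padicValInt_prod_le t g h hg)

theorem det_key {u h R T : ℕ} (x : Fin (u + 1) → ℤ) (hinj : Function.Injective x)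
    (hx : ∀ i, 0 ≤ x i ∧ x i < 2 ^ h) (z : Fin (u + 1) → ℤ) (G L H : ℤ[X]) (a : ℤ) (ha : Odd a)
    (hL : L.degree < (u : ℕ))
    (hG : G = L + C (2 ^ (R * u) * a) * X ^ u + C (2 ^ (R * (u + 1))) * H)
    (hz : ∀ i, (2 : ℤ) ^ T ∣ G.eval (x i) - z i) (hT : (R + h - 1) * u + 1 ≤ T) (hR : 1 ≤ R)
    (hu : 1 ≤ u) (M : ℤ) (hM : ∀ i, |z i| ≤ M) :
    (2 : ℤ) ^ (R * u) ≤ (u + 1) * (M * 2 ^ (h * u.choose 2)) := by
  classical
  set V : ℤ := (vandermonde x).det with hV
  have hV0 : V ≠ 0 := det_vandermonde_ne_zero_iff.2 hinj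
  obtain ⟨c, hc⟩ := dvd_sum_cof x H
  -- the main term
  have hmain : ∑ i, cof x i * G.eval (x i) = V * (2 ^ (R * u) * (a + 2 ^ R * c)) := by
    have e1 : ∑ i, cof x i * L.eval (x i) = 0 := by
      rw [sum_cof x L (hL.trans (by exact_mod_cast Nat.lt_succ_self u)),
        coeff_eq_zero_of_degree_lt hL, mul_zero]
    have e2 : ∑ i, cof x i * (X ^ u : ℤ[X]).eval (x i) = V := by
      rw [sum_cof x (X ^ u) (by rw [degree_X_pow]; exact_mod_cast Nat.lt_succ_self u)]
      simp [← hV]
    have e3 : ∀ i, cof x i * G.eval (x i) = cof x i * L.eval (x i) +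
        2 ^ (R * u) * a * (cof x i * (X ^ u : ℤ[X]).eval (x i)) +
        2 ^ (R * (u + 1)) * (cof x i * H.eval (x i)) := by
      intro i
      rw [hG]
      simp only [eval_add, eval_mul, eval_C]
      ring
    simp only [e3, sum_add_distrib, ← mul_sum, e1, e2, hc]
    rw [mul_add R u 1, mul_one, pow_add]
    ring
  -- the `2`-adic valuation of `V`
  obtain ⟨v, V', hV', hV'odd⟩ : ∃ (v : ℕ) (V' : ℤ), V = 2 ^ v * V' ∧ Odd V' := by
    obtain ⟨m, hn, hm⟩ := (Int.finiteMultiplicity_iff.2 ⟨by decide, hV0⟩ :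
      FiniteMultiplicity (2 : ℤ) V).exists_eq_pow_mul_and_not_dvd
    refine ⟨_, m, hn, ?_⟩
    rw [← Int.not_even_iff_odd, even_iff_two_dvd]
    exact hm
  -- the error term
  choose y hy using hz
  have herr : ∀ i, (2 : ℤ) ^ (R * u + v + 1) ∣ cof x i * (2 ^ T * y i) := by
    intro i
    set w : ℤ := ∏ j ∈ univ.erase i, (x i - x j) with hw
    have hcw : cof x i * w = V := cof_mul x i
    have hw0 : w ≠ 0 := by
      intro h0
      rw [h0, mul_zero] at hcw
      exact hV0 hcw.symm
    obtain ⟨f, w', hw', hw'odd⟩ : ∃ (f : ℕ) (w' : ℤ), w = 2 ^ f * w' ∧ Odd w' := by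
      obtain ⟨m, hn, hm⟩ := (Int.finiteMultiplicity_iff.2 ⟨by decide, hw0⟩ :
        FiniteMultiplicity (2 : ℤ) w).exists_eq_pow_mul_and_not_dvd
      refine ⟨_, m, hn, ?_⟩
      rw [← Int.not_even_iff_odd, even_iff_two_dvd]
      exact hm
    have hcard : (univ.erase i : Finset (Fin (u + 1))).card = u := by simp
    have hgj : ∀ j ∈ univ.erase i, x i - x j ≠ 0 ∧ |x i - x j| < 2 ^ h := by
      intro j hj
      refine ⟨sub_ne_zero.2 fun h => (mem_erase.1 hj).1 (hinj h).symm, ?_⟩
      have := hx i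
      have := hx j
      rw [abs_lt]
      constructor <;> linarith
    have hf : f ≤ (h - 1) * u := by
      have h1 := le_of_pow_dvd_prod (univ.erase i) (fun j => x i - x j) h f hgj
        (by rw [← hw, hw']; exact dvd_mul_right _ _)
      rwa [hcard] at h1
    have hh : 1 ≤ h := by
      have hne : (univ.erase i : Finset (Fin (u + 1))).Nonempty := by
        rw [← card_pos, hcard]; omega
      obtain ⟨j, hj⟩ := hne
      by_contra h0
      have h0' : h = 0 := by omega
      obtain ⟨g1, g2⟩ := hgj j hj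
      rw [h0', pow_zero] at g2
      exact g1 (Int.abs_lt_one_iff.1 g2)
    have hT2 : R * u + f + 1 ≤ T := by
      have e : (R + h - 1) * u = R * u + (h - 1) * u := by
        rw [← add_mul]; congr 1; omega
      omega
    have h4 : (2 : ℤ) ^ (T - f + v) ∣ (cof x i * 2 ^ T) * w' := by
      have e : T = (T - f) + f := by omega
      refine ⟨V', ?_⟩
      calc cof x i * 2 ^ T * w' = 2 ^ (T - f) * (cof x i * (2 ^ f * w')) := by
            conv_lhs => rw [e]
            rw [pow_add]; ring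
        _ = 2 ^ (T - f + v) * V' := by rw [← hw', hcw, hV', pow_add]; ring
    have h5 : (2 : ℤ) ^ (T - f + v) ∣ cof x i * 2 ^ T := by
      refine IsCoprime.dvd_of_dvd_mul_right ?_ h4
      apply IsCoprime.pow_left
      obtain ⟨b, hb⟩ := hw'odd
      exact ⟨-b, 1, by rw [hb]; ring⟩
    have h6 : (2 : ℤ) ^ (R * u + v + 1) ∣ 2 ^ (T - f + v) := pow_dvd_pow _ (by omega)
    rw [← mul_assoc]
    exact Dvd.dvd.mul_right (h6.trans h5) _
  -- the sum is not zero
  set I : ℤ := ∑ i, cof x i * z i with hI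
  obtain ⟨e, he⟩ : (2 : ℤ) ^ (R * u + v + 1) ∣ ∑ i, cof x i * (2 ^ T * y i) :=
    dvd_sum fun i _ => herr i
  have hIeq : I = 2 ^ (R * u + v) * (V' * (a + 2 ^ R * c) - 2 * e) := by
    have h1 : I = ∑ i, cof x i * G.eval (x i) - ∑ i, cof x i * (2 ^ T * y i) := by
      rw [hI, ← sum_sub_distrib]
      refine sum_congr rfl fun i _ => ?_
      rw [← hy i]; ring
    rw [h1, hmain, he, hV']
    rw [pow_add, pow_add]
    ring
  have hodd : Odd (V' * (a + 2 ^ R * c) - 2 * e) := by
    apply Odd.sub_even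
    · apply hV'odd.mul
      apply ha.add_even
      exact (Even.pow_of_ne_zero even_two (by omega)).mul_right _
    · exact even_two_mul _
  have hlow : (2 : ℤ) ^ (R * u) ≤ |I| := by
    rw [hIeq, abs_mul, abs_of_pos (by positivity : (0 : ℤ) < 2 ^ (R * u + v))]
    have h1 : 1 ≤ |V' * (a + 2 ^ R * c) - 2 * e| :=
      Int.one_le_abs (by intro h0; rw [h0] at hodd; exact absurd hodd (by decide))
    have h2 : (2 : ℤ) ^ (R * u) ≤ 2 ^ (R * u + v) := pow_le_pow_right₀ (by norm_num) (by omega)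
    have h3 : (0 : ℤ) < 2 ^ (R * u + v) := by positivity
    nlinarith
  have hup : |I| ≤ (u + 1) * (M * 2 ^ (h * u.choose 2)) := by
    rw [hI]
    calc |∑ i, cof x i * z i| ≤ ∑ i, |cof x i * z i| := abs_sum_le_sum_abs _ _
      _ ≤ ∑ _i : Fin (u + 1), M * 2 ^ (h * u.choose 2) := by
          refine sum_le_sum fun i _ => ?_
          rw [abs_mul, mul_comm]
          exact mul_le_mul (hM i) (abs_cof_le x hx i) (abs_nonneg _)
            ((abs_nonneg _).trans (hM i))
      _ = _ := by
          rw [sum_const, card_univ, Fintype.card_fin, nsmul_eq_mul]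
          push_cast
          ring
  exact hlow.trans hup

end Pool.Agent.Lib.MP_d88d68_nt
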