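import Pool.Agent.Lib.MP_d88d68_nt.Expand
import Pool.Agent.Lib.MP_d88d68_nt.Det

/-!
# Few multipliers in a residue class have a given exponent pattern and a small start
-/

namespace Pool.Agent.Lib.MP_d88d68_nt

open Finset Polynomial

/-- The polynomial with the coefficients `coef`, split at the degree `u`. -/
theorem coef_split (ε : ℕ → ℕ) (n R u d : ℕ) (y : ℤ) (hy : Odd y) (hn : 1 ≤ n) (h0 : ε 0 = 0)
    (h1 : ∀ i, 1 ≤ i → i < n → 1 ≤ ε i) :
    ∃ (G L H : ℤ[X]) (a : ℤ), Odd a ∧ L.degree < (u : ℕ) ∧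
      G = L + Polynomial.C (2 ^ (R * u) * a) * X ^ u + Polynomial.C (2 ^ (R * (u + 1))) * H ∧
      ∀ k : ℤ, G.eval k = ∑ j ∈ range (u + 1 + d), coef ε n R y j * k ^ j := by
  choose a ha ha2 using fun j => coef_top ε n R j y hy hn h0 h1
  refine ⟨_, ∑ j ∈ range u, Polynomial.C (coef ε n R y j) * X ^ j,
    ∑ j ∈ range d, Polynomial.C (2 ^ (R * j) * a (u + 1 + j)) * X ^ (u + 1 + j), a u, ha2 u, ?_, rfl, ?_⟩
  · rw [← Polynomial.mem_degreeLT]
    refine Submodule.sum_mem _ fun j hj => ?_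
    rw [Polynomial.mem_degreeLT]
    refine (degree_C_mul_X_pow_le j _).trans_lt ?_
    exact_mod_cast mem_range.1 hj
  · intro k
    rw [sum_range_add, sum_range_succ]
    simp only [eval_add, eval_mul, eval_C, eval_pow, eval_X, eval_finsetSum]
    rw [ha u, mul_sum]
    congr 1
    refine sum_congr rfl fun j _ => ?_
    rw [ha (u + 1 + j)]
    have e : R * (u + 1 + j) = R * (u + 1) + R * j := by ring
    rw [e, pow_add]
    ring

theorem card_class_det {K N R T u n : ℕ} (hu : 1 ≤ u) (hR1 : 1 ≤ R) (hRN : R ≤ N)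
    (hT : (N - 1) * u + 1 ≤ T)
    (hsize : (u + 1) * (2 ^ (K * N) * 2 ^ ((N - R) * u.choose 2)) < 2 ^ (R * u))
    (hn : 1 ≤ n) (ε : ℕ → ℕ) (h0 : ε 0 = 0) (hε : ∀ i, 1 ≤ i → i < n → 1 ≤ ε i)
    (r : ℕ) (s : Finset ℕ) (μ : ℕ → ℕ)
    (hs : ∀ q ∈ s, Odd q ∧ q < 2 ^ N ∧ q % 2 ^ R = r ∧ μ q < 2 ^ (K * N) ∧
      (∀ i < n, expo q (μ q) i = ε i) ∧ T ≤ expo q (μ q) n) :
    s.card ≤ u := by
  classical
  by_contra hcon
  push Not at hcon
  obtain ⟨t, hts, htc⟩ := exists_subset_card_eq (show u + 1 ≤ s.card from hcon)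
  have hkey : ∀ q ∈ s, q = r + 2 ^ R * (q / 2 ^ R) := by
    intro q hq
    have := Nat.mod_add_div q (2 ^ R)
    rw [(hs q hq).2.2.1] at this
    exact this.symm
  obtain ⟨q₁, hq₁⟩ : s.Nonempty := by
    rw [← card_pos]; omega
  have hrodd : Odd r := by
    have h1 := hs q₁ hq₁
    rw [← h1.2.2.1]
    have h2 : Odd (q₁ % 2 ^ R) := by
      rw [Nat.odd_iff, Nat.mod_mod_of_dvd _ (dvd_pow_self 2 (by omega))]
      exact Nat.odd_iff.1 h1.1
    exact h2
  have hTpos : 1 ≤ T := by omega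
  obtain ⟨y, hyd, hyodd⟩ : ∃ y : ℤ, (2 : ℤ) ^ T ∣ y * (r : ℤ) - 1 ∧ Odd y := by
    have hcop : IsCoprime ((r : ℤ)) ((2 : ℤ) ^ T) := by
      apply IsCoprime.pow_right
      obtain ⟨w, hw⟩ := hrodd
      exact ⟨1, -w, by rw [hw]; push_cast; ring⟩
    obtain ⟨a, b, hab⟩ := hcop
    refine ⟨a, ⟨-b, by linear_combination hab⟩, ?_⟩
    by_contra hcon
    rw [Int.not_odd_iff_even] at hcon
    have h1 : Even (a * (r : ℤ) + b * 2 ^ T) := by
      apply Even.add
      · exact hcon.mul_right _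
      · exact (Even.pow_of_ne_zero even_two (by omega)).mul_left _
    rw [hab] at h1
    exact absurd h1 (by decide)
  obtain ⟨G, L, H, a, ha, hL, hG, hGe⟩ := coef_split ε n R u T y hyodd hn h0 hε
  -- the points
  let e : Fin (u + 1) ≃ t := (Fintype.equivFinOfCardEq (by rw [Fintype.card_coe, htc])).symm
  let p : Fin (u + 1) → ℕ := fun i => (e i : ℕ)
  have hps : ∀ i, p i ∈ s := fun i => hts (e i).2
  have hpinj : Function.Injective p := fun i j h => e.injective (Subtype.ext h)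
  have hkeyp : ∀ i, p i = r + 2 ^ R * (p i / 2 ^ R) := fun i => hkey _ (hps i)
  have hb := det_key (u := u) (h := N - R) (R := R) (T := T) (fun i => ((p i / 2 ^ R : ℕ) : ℤ))
    (by
      intro i j hij
      have h1 : p i / 2 ^ R = p j / 2 ^ R := Nat.cast_injective (R := ℤ) hij
      apply hpinj
      rw [hkeyp i, hkeyp j, h1])
    (by
      intro i
      refine ⟨Int.natCast_nonneg _, ?_⟩
      have h1 : p i / 2 ^ R < 2 ^ (N - R) := by
        rw [Nat.div_lt_iff_lt_mul (by positivity), ← pow_add]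
        have : N - R + R = N := by omega
        rw [this]
        exact (hs _ (hps i)).2.1
      exact_mod_cast h1)
    (fun i => (μ (p i) : ℤ)) G L H a ha hL hG
    (by
      intro i
      obtain ⟨b1, b2, b3, b4, b5, b6⟩ := hs _ (hps i)
      rw [hGe]
      have hTd : T ≤ R * (u + T + 1) := by
        calc T = 1 * T := (one_mul T).symm
          _ ≤ R * (u + T + 1) := Nat.mul_le_mul hR1 (by omega)
      have h1 := expand ε n R (u + T) T (r : ℤ) y hR1 (by exact_mod_cast hrodd) hTd hyd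
        (p i / 2 ^ R) (μ (p i)) (by
          have h1 := traj_formula (p i) (μ (p i)) n
          have h2 : 2 ^ T ∣ (p i) ^ n * μ (p i) +
              ∑ i' ∈ range n, (p i) ^ (n - 1 - i') * 2 ^ expo (p i) (μ (p i)) i' := by
            rw [← h1]
            exact Dvd.dvd.mul_right (pow_dvd_pow _ b6) _
          have h3 : ∑ i' ∈ range n, (p i) ^ (n - 1 - i') * 2 ^ expo (p i) (μ (p i)) i' =
              ∑ i' ∈ range n, (p i) ^ (n - 1 - i') * 2 ^ ε i' := by
            refine sum_congr rfl fun i' hi => ?_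
            rw [b5 i' (mem_range.1 hi)]
          rw [h3] at h2
          have h4 : ((p i : ℕ) : ℤ) = (r : ℤ) + 2 ^ R * ((p i / 2 ^ R : ℕ) : ℤ) := by
            exact_mod_cast hkeyp i
          rw [← h4]
          exact_mod_cast h2)
      have e1 : u + 1 + T = u + T + 1 := by ring
      rw [e1]
      exact h1)
    (by
      have h1 : R + (N - R) - 1 = N - 1 := by omega
      rw [h1]
      exact hT)
    hR1 hu (2 ^ (K * N))
    (by
      intro i
      rw [abs_of_nonneg (Int.natCast_nonneg _)]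
      exact_mod_cast (hs _ (hps i)).2.2.2.1.le)
  have h2 : (2 : ℕ) ^ (R * u) ≤ (u + 1) * (2 ^ (K * N) * 2 ^ ((N - R) * u.choose 2)) := by
    exact_mod_cast hb
  omega

end Pool.Agent.Lib.MP_d88d68_nt
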