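import Pool.Agent.Lib.MP_d88d68_nt.Pattern
import Pool.Agent.Lib.MP_d88d68_nt.DClass

/-!
# Uniform expansion for all starts `m ≤ q ^ K`
-/

namespace Pool.Agent.Lib.MP_d88d68_nt

open Finset

theorem size_ineq {a r U L D : ℕ} (ha : 1 ≤ a) (hr : 1 ≤ r) (hU : a + r ≤ U) (hDL : D ≤ L)
    (hD : D * (U + 1).choose 2 + U ≤ r * L) :
    (a + r + 1) * (2 ^ (a * L) * 2 ^ ((L - (L - D)) * (a + r).choose 2)) <
      2 ^ ((L - D) * (a + r)) := by
  obtain ⟨R, rfl⟩ : ∃ R, L = R + D := ⟨L - D, by omega⟩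
  have e1 : R + D - D = R := by omega
  have e2 : R + D - R = D := by omega
  rw [e1, e2]
  set u := a + r with hu
  have hc : (u + 1).choose 2 = u + u.choose 2 := by
    rw [Nat.choose_succ_succ' u 1, Nat.choose_one_right]
  have hc2 : (u + 1).choose 2 ≤ (U + 1).choose 2 := Nat.choose_le_choose 2 (by omega)
  have h1 : a * (R + D) + D * u.choose 2 + u ≤ R * u := by
    have h2 := Nat.mul_le_mul_left D hc2
    rw [hc] at h2
    have h3 : R * u + D * u = a * (R + D) + r * (R + D) := by rw [hu]; ring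
    have h4 : D * (u + u.choose 2) = D * u + D * u.choose 2 := by ring
    omega
  have h5 : u + 1 < 2 ^ u := by
    obtain ⟨v, hv⟩ : ∃ v, u = v + 1 := ⟨u - 1, by omega⟩
    have h6 : v < 2 ^ v := Nat.lt_two_pow_self
    rw [hv, pow_succ]
    omega
  calc (u + 1) * (2 ^ (a * (R + D)) * 2 ^ (D * u.choose 2)) <
        2 ^ u * (2 ^ (a * (R + D)) * 2 ^ (D * u.choose 2)) :=
          Nat.mul_lt_mul_of_pos_right h5 (by positivity)
    _ = 2 ^ (a * (R + D) + D * u.choose 2 + u) := by rw [pow_add, pow_add]; ring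
    _ ≤ _ := Nat.pow_le_pow_right (by norm_num) h1

theorem growth_lt_succ {q : ℕ} (m : ℕ) (n : ℕ) :
    q ^ (n + 1) * m < 2 ^ expo q m (n + 1) * (C q)^[n + 1] m := by
  rw [traj_formula, sum_range_succ]
  have : 0 < q ^ (n + 1 - 1 - n) * 2 ^ expo q m n := by
    have e : n + 1 - 1 - n = 0 := by omega
    rw [e]
    positivity
  omega

theorem lt_expo {a r L q m j : ℕ} (ha : 1 ≤ a) (hm : q ^ (a - 1) ≤ m)
    (hqL : 2 ^ (L - 1) ≤ q) (hb : (C q)^[r + 1 + j] m ≤ q ^ j) :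
    (L - 1) * (a + r) + 1 ≤ expo q m (r + 1 + j) := by
  have e : r + 1 + j = r + j + 1 := by ring
  have h1 := growth_lt_succ (q := q) m (r + j)
  rw [← e] at h1
  have h2 : q ^ (a + r) * q ^ j < 2 ^ expo q m (r + 1 + j) * q ^ j := by
    calc q ^ (a + r) * q ^ j = q ^ (r + 1 + j) * q ^ (a - 1) := by
          rw [← pow_add, ← pow_add]; congr 1; omega
      _ ≤ q ^ (r + 1 + j) * m := Nat.mul_le_mul_left _ hm
      _ < _ := h1
      _ ≤ _ := Nat.mul_le_mul_left _ hb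
  have h3 : q ^ (a + r) < 2 ^ expo q m (r + 1 + j) := Nat.lt_of_mul_lt_mul_right h2
  have h4 : 2 ^ ((L - 1) * (a + r)) < 2 ^ expo q m (r + 1 + j) := by
    rw [pow_mul]
    exact (Nat.pow_le_pow_left hqL _).trans_lt h3
  exact (Nat.pow_lt_pow_iff_right (by norm_num)).1 h4

/-- The multipliers of a dyadic block, starts between `q ^ (a - 1)` and `q ^ a`. -/
theorem card_block {a r J L D U : ℕ} (ha : 1 ≤ a) (hr : 1 ≤ r) (hU : a + r ≤ U) (hL : 1 ≤ L)
    (hDL : D < L) (hD : D * (U + 1).choose 2 + U ≤ r * L)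
    (s : Finset ℕ) (hs : ∀ q ∈ s, Odd q ∧ 2 ^ (L - 1) ≤ q ∧ q < 2 ^ L ∧
      ∃ m, Odd m ∧ q ^ (a - 1) ≤ m ∧ m ≤ q ^ a ∧ ∃ j ≤ J, (C q)^[r + 1 + j] m ≤ q ^ j) :
    s.card ≤ (∑ i ∈ range (r + J + 1), (U * L).choose i) * (U * 2 ^ (L - D)) := by
  classical
  set T := (L - 1) * (a + r) + 1 with hT
  set R := L - D with hR
  have hR1 : 1 ≤ R := by omega
  have hRN : R ≤ L := by omega
  choose! μ hμ using fun q (hq : q ∈ s) => (hs q hq).2.2.2
  have hstep : ∀ q ∈ s, ∃ n, 1 ≤ n ∧ n ≤ r + 1 + J ∧ T ≤ expo q (μ q) n ∧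
      ∀ i < n, expo q (μ q) i < T := by
    intro q hq
    obtain ⟨b1, b2, b3, j, hj, b4⟩ := hμ q hq
    have h1 := lt_expo ha b2 (hs q hq).2.1 b4
    have h : ∃ n, T ≤ expo q (μ q) n := ⟨_, h1⟩
    refine ⟨Nat.find h, ?_, (Nat.find_min' h h1).trans (by omega), Nat.find_spec h,
      fun k hk => not_le.1 (Nat.find_min h hk)⟩
    rw [Nat.one_le_iff_ne_zero]
    intro h0
    have := Nat.find_spec h
    rw [h0, expo_zero] at this
    omega
  choose! ν hν using hstep
  let sig : ℕ → Finset ℕ × ℕ := fun q => (sums q (μ q) T, q % 2 ^ R)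
  let tgt : Finset (Finset ℕ × ℕ) :=
    ((Ico 1 T).powerset.filter fun t => t.card ≤ r + J) ×ˢ range (2 ^ R)
  have hmaps : ∀ q ∈ s, sig q ∈ tgt := by
    intro q hq
    obtain ⟨a1, a2, a3, a4⟩ := hν q hq
    simp only [tgt, sig, mem_product, mem_range, mem_filter, mem_powerset]
    refine ⟨⟨sums_subset _ _ _, ?_⟩, Nat.mod_lt _ (by positivity)⟩
    refine card_sums_le (hs q hq).1 (hμ q hq).1 (a3.trans ?_)
    exact (expo_strictMono (hs q hq).1 (hμ q hq).1).monotone (by omega)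
  have hcard : tgt.card ≤ (∑ i ∈ range (r + J + 1), (U * L).choose i) * 2 ^ R := by
    simp only [tgt, card_product, card_range]
    apply Nat.mul_le_mul_right
    refine (card_small_subsets' T (r + J)).trans (sum_le_sum fun i _ => ?_)
    apply Nat.choose_le_choose i
    have h1 : (L - 1) * (a + r) ≤ L * U := Nat.mul_le_mul (by omega) hU
    rw [mul_comm L U] at h1
    omega
  have hfib : ∀ c ∈ tgt, (s.filter fun q => sig q = c).card ≤ U := by
    rintro ⟨S, z⟩ _
    rcases (s.filter fun q => sig q = (S, z)).eq_empty_or_nonempty with he | ⟨q₁, hq₁⟩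
    · rw [he]; simp
    rw [mem_filter] at hq₁
    have hsig : ∀ q ∈ s.filter (fun q => sig q = (S, z)), q ∈ s ∧ sums q (μ q) T = S ∧
        q % 2 ^ R = z := by
      intro q hq
      rw [mem_filter] at hq
      have h := hq.2
      simp only [sig, Prod.mk.injEq] at h
      exact ⟨hq.1, h.1, h.2⟩
    have hs1 := hsig q₁ (mem_filter.2 hq₁)
    obtain ⟨n1, n2, n3, n4⟩ := hν q₁ hq₁.1
    refine (card_class_det (K := a) (N := L) (R := R) (T := T) (u := a + r) (by omega) hR1 hRN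
      le_rfl ?_ n1 (fun i => expo q₁ (μ q₁) i) (expo_zero _ _) ?_ z _ μ ?_).trans hU
    · exact size_ineq ha hr hU hDL.le hD
    · intro i hi1 _
      exact hi1.trans (le_expo (hs q₁ hq₁.1).1 (hμ q₁ hq₁.1).1 i)
    · intro q hq
      obtain ⟨b1, b2, b3⟩ := hsig q hq
      obtain ⟨c1, c2, c3, _⟩ := hs q b1
      have d1 := (hμ q b1).1
      have heq : ∀ i, expo q₁ (μ q₁) i < T → expo q (μ q) i = expo q₁ (μ q₁) i := fun i hi =>
        expo_eq_of_sums_eq' (hs q₁ hq₁.1).1 c1 (hμ q₁ hq₁.1).1 d1 (hs1.2.1.trans b2.symm) i hi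
      refine ⟨c1, c3, b3, ?_, fun i hi => heq i (n4 i hi), ?_⟩
      · refine (hμ q b1).2.2.1.trans_lt ?_
        rw [mul_comm, pow_mul]
        exact Nat.pow_lt_pow_left c3 (by omega)
      · by_contra hcon
        push Not at hcon
        have := expo_eq_of_sums_eq' c1 (hs q₁ hq₁.1).1 d1 (hμ q₁ hq₁.1).1
          (b2.trans hs1.2.1.symm) (ν q₁) hcon
        omega
  rw [card_eq_sum_card_fiberwise hmaps]
  refine (sum_le_sum hfib).trans ?_
  rw [sum_const, smul_eq_mul]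
  calc tgt.card * U ≤
        (∑ i ∈ range (r + J + 1), (U * L).choose i) * 2 ^ R * U :=
          Nat.mul_le_mul_right _ hcard
    _ = _ := by ring

theorem exists_level {q m : ℕ} (hm : 1 ≤ m) (K : ℕ) (hK : 1 ≤ K) (h : m ≤ q ^ K) :
    ∃ a ∈ Icc 1 K, q ^ (a - 1) ≤ m ∧ m ≤ q ^ a := by
  induction K, hK using Nat.le_induction with
  | base => exact ⟨1, by simp, by simpa using hm, h⟩
  | succ K hK ih =>
    rcases le_or_gt m (q ^ K) with h1 | h1
    · obtain ⟨a, ha, hb⟩ := ih h1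
      rw [mem_Icc] at ha
      exact ⟨a, mem_Icc.2 ⟨ha.1, by omega⟩, hb⟩
    · exact ⟨K + 1, mem_Icc.2 ⟨by omega, le_rfl⟩, by simpa using h1.le, h⟩

/-- The dyadic block. -/
theorem card_det_block {K r J L D : ℕ} (hK : 1 ≤ K) (hr : 1 ≤ r) (hL : 1 ≤ L)
    (hDL : D < L) (hD : D * (K + r + 1).choose 2 + (K + r) ≤ r * L)
    (s : Finset ℕ) (hs : ∀ q ∈ s, Odd q ∧ 2 ^ (L - 1) ≤ q ∧ q < 2 ^ L ∧
      ∃ m, Odd m ∧ m ≤ q ^ K ∧ ∃ j ≤ J, (C q)^[r + 1 + j] m ≤ q ^ j) :
    s.card ≤ K * ((∑ i ∈ range (r + J + 1), ((K + r) * L).choose i) * ((K + r) * 2 ^ (L - D))) := by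
  classical
  let P : ℕ → ℕ → Prop := fun a q =>
    ∃ m, Odd m ∧ q ^ (a - 1) ≤ m ∧ m ≤ q ^ a ∧ ∃ j ≤ J, (C q)^[r + 1 + j] m ≤ q ^ j
  have h1 : s ⊆ (Icc 1 K).biUnion fun a => s.filter fun q => P a q := by
    intro q hq
    obtain ⟨_, _, _, m, b1, b2, b3⟩ := hs q hq
    obtain ⟨a, ha, c1, c2⟩ := exists_level b1.pos K hK b2
    exact mem_biUnion.2 ⟨a, ha, mem_filter.2 ⟨hq, m, b1, c1, c2, b3⟩⟩
  refine (card_le_card h1).trans (card_biUnion_le.trans ?_)
  refine (sum_le_sum (g := fun _ => (∑ i ∈ range (r + J + 1), ((K + r) * L).choose i) *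
    ((K + r) * 2 ^ (L - D))) fun a ha => ?_).trans ?_
  · rw [mem_Icc] at ha
    refine card_block ha.1 hr (by omega) hL hDL hD _ fun q hq => ?_
    rw [mem_filter] at hq
    obtain ⟨c1, c2, c3, _⟩ := hs q hq.1
    exact ⟨c1, c2, c3, hq.2⟩
  · rw [sum_const, smul_eq_mul, Nat.card_Icc]
    simp

theorem sum_choose_le_real (n k : ℕ) (β : ℝ) (hβ : 1 ≤ β) :
    (∑ i ∈ range (k + 1), (n.choose i : ℝ)) ≤ β ^ k * (1 / β + 1) ^ n := by
  have hβ0 : 0 < β := by linarith
  have h1 : (∑ i ∈ range (k + 1), (n.choose i : ℝ)) ≤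
      ∑ i ∈ range (k + 1), β ^ k * ((1 / β) ^ i * (n.choose i : ℝ)) := by
    refine sum_le_sum fun i hi => ?_
    rw [mem_range] at hi
    have h2 : (1 : ℝ) ≤ β ^ k * (1 / β) ^ i := by
      rw [one_div, inv_pow, ← div_eq_mul_inv, le_div_iff₀ (by positivity), one_mul]
      exact pow_le_pow_right₀ hβ (by omega)
    rw [← mul_assoc]
    exact le_mul_of_one_le_left (Nat.cast_nonneg _) h2
  refine h1.trans ?_
  rw [← mul_sum]
  apply mul_le_mul_of_nonneg_left _ (by positivity)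
  rw [add_pow]
  have h3 : ∑ i ∈ range (n + 1), ((1 : ℝ) / β) ^ i * 1 ^ (n - i) * (n.choose i : ℝ) =
      ∑ i ∈ range (n + 1 + (k + 1)), (1 / β) ^ i * (n.choose i : ℝ) := by
    rw [sum_subset (range_subset_range.2 (show n + 1 ≤ n + 1 + (k + 1) by omega))]
    · exact sum_congr rfl fun i _ => by rw [one_pow, mul_one]
    · intro i _ hi
      rw [mem_range, not_lt] at hi
      rw [Nat.choose_eq_zero_of_lt (by omega)]
      simp
  rw [h3]
  apply sum_le_sum_of_subset_of_nonneg (range_subset_range.2 (by omega))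
  intro i _ _
  positivity

theorem pow_le_rpow_real (n : ℕ) (y : ℝ) (hy : 0 ≤ y) : (y + 1) ^ n ≤ 2 ^ ((n : ℝ) * (2 * y)) := by
  have h1 : y + 1 ≤ 2 ^ (2 * y) := by
    refine (Real.add_one_le_exp _).trans ?_
    rw [Real.rpow_def_of_pos (by norm_num)]
    apply Real.exp_le_exp.2
    have h2 : (1 / 2 : ℝ) ≤ Real.log 2 := by linarith [Real.log_two_gt_d9]
    calc y = 1 / 2 * (2 * y) := by ring
      _ ≤ Real.log 2 * (2 * y) := mul_le_mul_of_nonneg_right h2 (by linarith)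
  calc (y + 1) ^ n ≤ (2 ^ (2 * y)) ^ n := pow_le_pow_left₀ (by positivity) h1 n
    _ = _ := by rw [← Real.rpow_natCast, ← Real.rpow_mul (by norm_num), mul_comm]

/-- The dyadic block, real form. -/
theorem card_det_real {K r J L : ℕ} (hK : 1 ≤ K) (hr : 1 ≤ r) (hL : 1 ≤ L) (s : Finset ℕ)
    (hs : ∀ q ∈ s, Odd q ∧ 2 ^ (L - 1) ≤ q ∧ q < 2 ^ L ∧
      ∃ m, Odd m ∧ m ≤ q ^ K ∧ ∃ j ≤ J, (C q)^[r + 1 + j] m ≤ q ^ j) :
    (s.card : ℝ) ≤ 4 * K * (K + r) *
      (∑ i ∈ range (r + J + 1), (((K + r) * L).choose i : ℝ)) *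
      2 ^ ((L : ℝ) * (1 - 2 * r / ((K + r) * (K + r + 1)))) := by
  have hKr : (1 : ℝ) ≤ K := by exact_mod_cast hK
  have hrr : (1 : ℝ) ≤ r := by exact_mod_cast hr
  set B : ℕ := ∑ i ∈ range (r + J + 1), ((K + r) * L).choose i with hB
  have hBr : (∑ i ∈ range (r + J + 1), (((K + r) * L).choose i : ℝ)) = (B : ℝ) := by
    rw [hB]; push_cast; rfl
  rw [hBr]
  have hone : (1 : ℝ) ≤ B := by
    have : 1 ≤ B := by
      rw [hB]
      refine le_trans ?_ (single_le_sum (f := fun i => ((K + r) * L).choose i)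
        (fun i _ => Nat.zero_le _) (mem_range.2 (show 0 < r + J + 1 by omega)))
      simp
    exact_mod_cast this
  have hE : (0 : ℝ) < 2 ^ ((L : ℝ) * (1 - 2 * r / ((K + r) * (K + r + 1)))) := by positivity
  have hU0 : (0 : ℝ) < (K + r) * (K + r + 1) := by positivity
  rcases Nat.lt_or_ge (r * L) (K + r) with hL' | hL'
  · have h1 : (s.card : ℝ) ≤ 2 ^ L := by
      have : s.card ≤ 2 ^ L := by
        have h2 : s ⊆ range (2 ^ L) := fun q hq => mem_range.2 (hs q hq).2.2.1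
        simpa using card_le_card h2
      exact_mod_cast this
    have h2 : (2 : ℝ) ^ L ≤ 2 * 2 ^ ((L : ℝ) * (1 - 2 * r / ((K + r) * (K + r + 1)))) := by
      have e : (2 : ℝ) * 2 ^ ((L : ℝ) * (1 - 2 * r / ((K + r) * (K + r + 1)))) =
          2 ^ (1 + (L : ℝ) * (1 - 2 * r / ((K + r) * (K + r + 1)))) := by
        rw [Real.rpow_add (by norm_num)]; simp
      rw [e, ← Real.rpow_natCast]
      apply Real.rpow_le_rpow_of_exponent_le (by norm_num)
      have h3 : (L : ℝ) * (2 * r / ((K + r) * (K + r + 1))) ≤ 1 := by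
        rw [mul_div_assoc', div_le_one hU0]
        have h4 : (r : ℝ) * L ≤ K + r := by exact_mod_cast hL'.le
        nlinarith
      linarith
    have h3 : (2 : ℝ) ≤ 4 * K * (K + r) * B := by
      have h4 : (1 : ℝ) ≤ K * (K + r) := by nlinarith
      nlinarith
    exact h1.trans (h2.trans (mul_le_mul_of_nonneg_right h3 hE.le))
  · set Cc := (K + r + 1).choose 2 with hCc
    have hCc2 : 2 * Cc = (K + r) * (K + r + 1) := by
      have h1 := Nat.choose_two_right (K + r + 1)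
      have h2 : Even ((K + r + 1) * (K + r + 1 - 1)) := Nat.even_mul_pred_self _
      rw [hCc, h1]
      have h3 := Nat.two_mul_div_two_of_even h2
      rw [h3]
      have e : K + r + 1 - 1 = K + r := by omega
      rw [e]; ring
    have hCpos : 0 < Cc := by
      rcases Nat.eq_zero_or_pos Cc with h | h
      · rw [h] at hCc2
        have : 0 < (K + r) * (K + r + 1) := by positivity
        omega
      · exact h
    have hCr : r < Cc := by nlinarith
    set D := (r * L - (K + r)) / Cc with hD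
    have hD1 : D * Cc ≤ r * L - (K + r) := Nat.div_mul_le_self _ _
    have hD3 : D * Cc + (K + r) ≤ r * L := by omega
    have hD2 : D < L := by
      by_contra hcon
      push Not at hcon
      have h1 : L * r ≤ D * Cc := Nat.mul_le_mul hcon hCr.le
      rw [mul_comm L r] at h1
      omega
    have h1 := card_det_block (J := J) hK hr hL hD2 hD3 s hs
    have h2 : (s.card : ℝ) ≤ K * (B * ((K + r) * 2 ^ (L - D))) := by exact_mod_cast h1
    have h3 : (2 : ℝ) ^ (L - D) ≤ 4 * 2 ^ ((L : ℝ) * (1 - 2 * r / ((K + r) * (K + r + 1)))) := by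
      have e : (4 : ℝ) * 2 ^ ((L : ℝ) * (1 - 2 * r / ((K + r) * (K + r + 1)))) =
          2 ^ (2 + (L : ℝ) * (1 - 2 * r / ((K + r) * (K + r + 1)))) := by
        rw [Real.rpow_add (by norm_num)]; norm_num
      rw [e, ← Real.rpow_natCast]
      apply Real.rpow_le_rpow_of_exponent_le (by norm_num)
      rw [Nat.cast_sub hD2.le]
      have h4 : (r : ℝ) * L ≤ (K + r) * (K + r + 1) / 2 * (D + 1) + (K + r) := by
        have h5 := Nat.lt_mul_div_succ (r * L - (K + r)) hCpos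
        rw [← hD] at h5
        have h6 : r * L ≤ Cc * (D + 1) + (K + r) := by omega
        have h7 : (r : ℝ) * L ≤ Cc * (D + 1) + (K + r) := by exact_mod_cast h6
        have h8 : (2 : ℝ) * Cc = (K + r) * (K + r + 1) := by exact_mod_cast hCc2
        have h9 : (Cc : ℝ) = (K + r) * (K + r + 1) / 2 := by linarith
        rwa [h9] at h7
      have h7 : (L : ℝ) * (2 * r / ((K + r) * (K + r + 1))) ≤ D + 2 := by
        rw [mul_div_assoc', div_le_iff₀ hU0]
        nlinarith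
      linarith
    calc (s.card : ℝ) ≤ K * (B * ((K + r) * 2 ^ (L - D))) := h2
      _ ≤ K * (B * ((K + r) * (4 * 2 ^ ((L : ℝ) * (1 - 2 * r / ((K + r) * (K + r + 1))))))) := by
          gcongr
      _ = _ := by ring

/-- Uniform expansion for almost all odd `q`, finite sets. -/
theorem card_det {K r J N : ℕ} (hK : 1 ≤ K) (hr : 1 ≤ r) (s : Finset ℕ)
    (hs : ∀ q ∈ s, q < 2 ^ N ∧ Odd q ∧
      ∃ m, Odd m ∧ m ≤ q ^ K ∧ ∃ j ≤ J, (C q)^[r + 1 + j] m ≤ q ^ j) :
    (s.card : ℝ) ≤ 4 * K * (K + r) * N * (8 * (K + r) ^ 3) ^ (r + J) *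
      2 ^ ((N : ℝ) * (1 - r / (K + r) ^ 2)) := by
  classical
  have hKr : (1 : ℝ) ≤ K := by exact_mod_cast hK
  have hrr : (1 : ℝ) ≤ r := by exact_mod_cast hr
  have hU0 : (0 : ℝ) < (K + r) * (K + r + 1) := by positivity
  have hU1 : (0 : ℝ) < K + r := by positivity
  have hN0 : (0 : ℝ) ≤ N := Nat.cast_nonneg _
  have hmaps : ∀ q ∈ s, Nat.log 2 q + 1 ∈ Icc 1 N := by
    intro q hq
    obtain ⟨h1, h2, _⟩ := hs q hq
    rw [mem_Icc]
    refine ⟨Nat.le_add_left _ _, ?_⟩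
    exact Nat.log_lt_of_lt_pow h2.pos.ne' h1
  rw [card_eq_sum_card_fiberwise hmaps]
  push_cast
  have hpos1 : (0 : ℝ) ≤ 1 - 2 * r / ((K + r) * (K + r + 1)) := by
    rw [sub_nonneg, div_le_one hU0]
    nlinarith
  set B : ℝ := ∑ i ∈ range (r + J + 1), (((K + r) * N).choose i : ℝ) with hB
  have hB0 : 0 ≤ B := by rw [hB]; positivity
  have hb : ∀ L ∈ Icc 1 N, ((s.filter fun q => Nat.log 2 q + 1 = L).card : ℝ) ≤
      4 * K * (K + r) * B * 2 ^ ((N : ℝ) * (1 - 2 * r / ((K + r) * (K + r + 1)))) := by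
    intro L hL
    rw [mem_Icc] at hL
    have hLN : (L : ℝ) ≤ N := by exact_mod_cast hL.2
    refine (card_det_real (J := J) (L := L) hK hr hL.1
      (s.filter fun q => Nat.log 2 q + 1 = L) ?_).trans ?_
    · intro q hq
      rw [mem_filter] at hq
      obtain ⟨h1, h2, h3⟩ := hs q hq.1
      refine ⟨h2, ?_, ?_, h3⟩
      · have : L - 1 = Nat.log 2 q := by omega
        rw [this]
        exact Nat.pow_log_le_self 2 h2.pos.ne'
      · rw [← hq.2]
        exact Nat.lt_pow_succ_log_self (by norm_num) q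
    · have e1 : (∑ i ∈ range (r + J + 1), (((K + r) * L).choose i : ℝ)) ≤ B := by
        rw [hB]
        refine sum_le_sum fun i _ => ?_
        exact_mod_cast Nat.choose_le_choose i (Nat.mul_le_mul_left (K + r) hL.2)
      have e2 : (2 : ℝ) ^ ((L : ℝ) * (1 - 2 * r / ((K + r) * (K + r + 1)))) ≤
          2 ^ ((N : ℝ) * (1 - 2 * r / ((K + r) * (K + r + 1)))) := by
        apply Real.rpow_le_rpow_of_exponent_le (by norm_num)
        exact mul_le_mul_of_nonneg_right hLN hpos1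
      apply mul_le_mul _ e2 (by positivity) (by positivity)
      exact mul_le_mul_of_nonneg_left e1 (by positivity)
  refine (sum_le_sum hb).trans ?_
  rw [sum_const, nsmul_eq_mul, Nat.card_Icc]
  simp only [add_tsub_cancel_right]
  have hβ : (1 : ℝ) ≤ 8 * (K + r) ^ 3 := by
    have h1 : (1 : ℝ) ≤ (K + r) := by linarith
    have h2 : (1 : ℝ) ≤ ((K : ℝ) + r) ^ 3 := one_le_pow₀ h1
    linarith
  have hBle : B ≤ (8 * (K + r) ^ 3) ^ (r + J) * 2 ^ ((N : ℝ) * (1 / (4 * (K + r) ^ 2))) := by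
    rw [hB]
    refine (sum_choose_le_real _ _ (8 * (K + r) ^ 3) hβ).trans ?_
    apply mul_le_mul_of_nonneg_left _ (by positivity)
    refine (pow_le_rpow_real _ _ (by positivity)).trans ?_
    apply Real.rpow_le_rpow_of_exponent_le (by norm_num)
    push_cast
    apply le_of_eq
    field_simp
    ring
  calc (N : ℝ) * (4 * K * (K + r) * B * 2 ^ ((N : ℝ) * (1 - 2 * r / ((K + r) * (K + r + 1))))) ≤
        N * (4 * K * (K + r) * ((8 * (K + r) ^ 3) ^ (r + J) *
          2 ^ ((N : ℝ) * (1 / (4 * (K + r) ^ 2)))) *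
          2 ^ ((N : ℝ) * (1 - 2 * r / ((K + r) * (K + r + 1))))) := by gcongr
    _ = 4 * K * (K + r) * N * (8 * (K + r) ^ 3) ^ (r + J) *
          (2 ^ ((N : ℝ) * (1 / (4 * (K + r) ^ 2))) *
          2 ^ ((N : ℝ) * (1 - 2 * r / ((K + r) * (K + r + 1))))) := by ring
    _ ≤ _ := by
        apply mul_le_mul_of_nonneg_left _ (by positivity)
        rw [← Real.rpow_add (by norm_num), ← mul_add]
        apply Real.rpow_le_rpow_of_exponent_le (by norm_num)
        apply mul_le_mul_of_nonneg_left _ hN0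
        have h1 : 1 / (4 * ((K : ℝ) + r) ^ 2) + r / ((K : ℝ) + r) ^ 2 ≤
            2 * r / ((K + r) * (K + r + 1)) := by
          set U : ℝ := (K : ℝ) + r with hU
          have hU2 : 2 ≤ U := by linarith
          rw [div_add_div _ _ (by positivity) (by positivity), div_le_div_iff₀ (by positivity) (by positivity)]
          have h2 : 0 ≤ U ^ 3 * ((r : ℝ) * (4 * U - 4) - (U + 1)) := by
            apply mul_nonneg (by positivity)
            nlinarith
          nlinarith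
        linarith

end Pool.Agent.Lib.MP_d88d68_nt
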