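import Pool.Agent.Lib.MP_d88d68_nt.Basic

/-!
# `m` as a polynomial in the digits of `q` modulo `2 ^ T`

If `E_n ≥ T` then `q ^ n m + ∑ q ^ (n-1-i) 2 ^ E_i ≡ 0` modulo `2 ^ T`; on `q = q₀ + 2 ^ R k` this
determines `m` modulo `2 ^ T` as a polynomial in `k` of degree `d`, if `R (d + 1) ≥ T`, with leading
coefficient `2 ^ (R d)` times an odd number.
-/

namespace Pool.Agent.Lib.MP_d88d68_nt

open Finset

theorem traj_formula (q m n : ℕ) : 2 ^ expo q m n * (C q)^[n] m =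
    q ^ n * m + ∑ i ∈ range n, q ^ (n - 1 - i) * 2 ^ expo q m i := by
  induction n with
  | zero => simp [expo]
  | succ n ih =>
    rw [rec_eq, mul_add, mul_one, ← mul_assoc, mul_comm _ q, mul_assoc, ih, sum_range_succ,
      mul_add, mul_sum]
    have e : ∀ i ∈ range n, q * (q ^ (n - 1 - i) * 2 ^ expo q m i) =
        q ^ (n + 1 - 1 - i) * 2 ^ expo q m i := by
      intro i hi
      rw [mem_range] at hi
      have : n + 1 - 1 - i = n - 1 - i + 1 := by omega
      rw [this, pow_succ]; ring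
    rw [sum_congr rfl e]
    simp only [add_tsub_cancel_right, Nat.sub_self, pow_zero, one_mul]
    ring

section ring

variable {A : Type*} [CommRing A]

theorem geom_aux (x : A) (d : ℕ) :
    (1 + x) * ∑ j ∈ range (d + 1), (-1) ^ j * ((0 + j).choose j : A) * x ^ j =
      1 + (-1) ^ d * x ^ (d + 1) := by
  induction d with
  | zero => simp
  | succ d ih =>
    rw [sum_range_succ, mul_add, ih, zero_add, Nat.choose_self]
    push_cast
    ring

theorem binom_aux (x : A) (i d : ℕ) :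
    (1 + x) * ∑ j ∈ range (d + 1), (-1) ^ j * ((i + 1 + j).choose j : A) * x ^ j =
      ∑ j ∈ range (d + 1), (-1) ^ j * ((i + j).choose j : A) * x ^ j +
        (-1) ^ d * ((i + 1 + d).choose d : A) * x ^ (d + 1) := by
  induction d with
  | zero => simp
  | succ d ih =>
    rw [sum_range_succ, mul_add, ih, sum_range_succ (n := d + 1)]
    have e : (i + 1 + (d + 1)).choose (d + 1) = (i + 1 + d).choose d + (i + (d + 1)).choose (d + 1) := by
      have h1 : i + 1 + (d + 1) = (i + 1 + d) + 1 := by ring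
      have h2 : i + (d + 1) = i + 1 + d := by ring
      rw [h1, h2, Nat.choose_succ_succ]
    rw [e]
    push_cast
    ring

/-- The truncated binomial series is the inverse of `(1 + x) ^ (i + 1)` if `x ^ (d + 1) = 0`. -/
theorem binom_inv (x : A) (d : ℕ) (hx : x ^ (d + 1) = 0) (i : ℕ) :
    (1 + x) ^ (i + 1) * ∑ j ∈ range (d + 1), (-1) ^ j * ((i + j).choose j : A) * x ^ j = 1 := by
  induction i with
  | zero => rw [zero_add, pow_one, geom_aux, hx]; ring
  | succ i ih =>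
    rw [pow_succ, mul_assoc, binom_aux, hx, mul_zero, add_zero, ih]

end ring

/-- The coefficients. -/
def coef (ε : ℕ → ℕ) (n R : ℕ) (y : ℤ) (j : ℕ) : ℤ :=
  -∑ i ∈ range n, 2 ^ ε i * y ^ (i + 1) * ((-1) ^ j * ((i + j).choose j : ℤ) * (2 ^ R * y) ^ j)

theorem coef_top (ε : ℕ → ℕ) (n R d : ℕ) (y : ℤ) (hy : Odd y) (hn : 1 ≤ n) (h0 : ε 0 = 0)
    (h1 : ∀ i, 1 ≤ i → i < n → 1 ≤ ε i) :
    ∃ a' : ℤ, coef ε n R y d = 2 ^ (R * d) * a' ∧ Odd a' := by
  refine ⟨-∑ i ∈ range n, 2 ^ ε i * y ^ (i + 1) * ((-1) ^ d * ((i + d).choose d : ℤ) * y ^ d),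
    ?_, ?_⟩
  · unfold coef
    rw [mul_neg, mul_sum]
    congr 1
    refine sum_congr rfl fun i _ => ?_
    rw [mul_pow, ← pow_mul]
    ring
  · apply Odd.neg
    obtain ⟨n, rfl⟩ := Nat.exists_eq_add_of_le' hn
    rw [sum_range_succ']
    apply Even.add_odd
    · apply Finset.even_sum
      intro i hi
      rw [mem_range] at hi
      apply Even.mul_right
      apply Even.mul_right
      apply Even.pow_of_ne_zero even_two
      have := h1 (i + 1) (by omega) (by omega)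
      omega
    · rw [h0, zero_add, zero_add, pow_zero, pow_one, Nat.choose_self, one_mul]
      apply hy.mul
      apply Odd.mul
      · rw [Nat.cast_one, mul_one]
        exact Odd.pow (by decide)
      · exact hy.pow

theorem expand (ε : ℕ → ℕ) (n R d T : ℕ) (q₀ y : ℤ) (hR : 1 ≤ R) (hq : Odd q₀)
    (hT : T ≤ R * (d + 1)) (hy : (2 : ℤ) ^ T ∣ y * q₀ - 1) (k m : ℕ)
    (h : (2 : ℤ) ^ T ∣ (q₀ + 2 ^ R * k) ^ n * m +
      ∑ i ∈ range n, (q₀ + 2 ^ R * k) ^ (n - 1 - i) * 2 ^ ε i) :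
    (2 : ℤ) ^ T ∣ ∑ j ∈ range (d + 1), coef ε n R y j * (k : ℤ) ^ j - m := by
  have key : ∀ w : ℤ, ((w : ZMod (2 ^ T)) = 0 ↔ (2 : ℤ) ^ T ∣ w) := by
    intro w
    rw [ZMod.intCast_zmod_eq_zero_iff_dvd]
    push_cast
    rfl
  rw [← key] at hy h
  have hx : ((2 ^ R * y * k : ℤ) : ZMod (2 ^ T)) ^ (d + 1) = 0 := by
    rw [← Int.cast_pow, key, mul_assoc, mul_pow, ← pow_mul]
    exact Dvd.dvd.mul_right (pow_dvd_pow _ hT) _
  set x : ZMod (2 ^ T) := ((2 ^ R * y * k : ℤ) : ZMod (2 ^ T)) with hxdef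
  set Q : ℤ := q₀ + 2 ^ R * k with hQ
  have hQy : (Q : ZMod (2 ^ T)) * (y : ZMod (2 ^ T)) = 1 + x := by
    have : ((Q * y - (1 + 2 ^ R * y * k) : ℤ) : ZMod (2 ^ T)) = 0 := by
      have e : Q * y - (1 + 2 ^ R * y * k) = y * q₀ - 1 := by rw [hQ]; ring
      rw [e]; exact hy
    push_cast at this hxdef ⊢
    rw [hxdef]
    linear_combination this
  have hQu : IsUnit ((Q : ZMod (2 ^ T)) ^ n) := by
    apply IsUnit.pow
    have hodd : Odd Q := by
      rw [hQ]
      apply hq.add_even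
      apply Even.mul_right
      exact Even.pow_of_ne_zero even_two (by omega)
    have hcop : IsCoprime Q ((2 : ℤ) ^ T) := by
      apply IsCoprime.pow_right
      obtain ⟨r, hr⟩ := hodd
      exact ⟨1, -r, by rw [hr]; ring⟩
    obtain ⟨a, b, hab⟩ := hcop
    refine IsUnit.of_mul_eq_one (a : ZMod (2 ^ T)) ?_
    have h2 : ((2 : ℤ) ^ T : ZMod (2 ^ T)) = 0 := by
      have := (key ((2 : ℤ) ^ T)).2 dvd_rfl
      exact_mod_cast this
    have := congrArg (fun w : ℤ => (w : ZMod (2 ^ T))) hab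
    push_cast at this h2
    rw [h2, mul_zero, add_zero] at this
    rw [mul_comm]; exact this
  rw [← key]
  apply hQu.mul_left_cancel
  rw [mul_zero]
  have hG : ((∑ j ∈ range (d + 1), coef ε n R y j * (k : ℤ) ^ j : ℤ) : ZMod (2 ^ T)) =
      -∑ i ∈ range n, (2 : ZMod (2 ^ T)) ^ ε i * (y : ZMod (2 ^ T)) ^ (i + 1) *
        ∑ j ∈ range (d + 1), (-1) ^ j * ((i + j).choose j : ZMod (2 ^ T)) * x ^ j := by
    unfold coef
    simp only [neg_mul, sum_neg_distrib, sum_mul, mul_sum, Int.cast_neg, Int.cast_sum]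
    rw [sum_comm]
    congr 1
    refine sum_congr rfl fun i _ => sum_congr rfl fun j _ => ?_
    rw [hxdef]
    push_cast
    ring
  have hcast : ((∑ j ∈ range (d + 1), coef ε n R y j * (k : ℤ) ^ j - m : ℤ) : ZMod (2 ^ T)) =
      ((∑ j ∈ range (d + 1), coef ε n R y j * (k : ℤ) ^ j : ℤ) : ZMod (2 ^ T)) - m := by
    push_cast; rfl
  rw [hcast, hG, mul_sub, mul_neg, mul_sum]
  have hterm : ∀ i ∈ range n, (Q : ZMod (2 ^ T)) ^ n * (2 ^ ε i * (y : ZMod (2 ^ T)) ^ (i + 1) *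
      ∑ j ∈ range (d + 1), (-1) ^ j * ((i + j).choose j : ZMod (2 ^ T)) * x ^ j) =
      (Q : ZMod (2 ^ T)) ^ (n - 1 - i) * 2 ^ ε i := by
    intro i hi
    rw [mem_range] at hi
    have e1 : (Q : ZMod (2 ^ T)) ^ n = (Q : ZMod (2 ^ T)) ^ (n - 1 - i) *
        (Q : ZMod (2 ^ T)) ^ (i + 1) := by
      rw [← pow_add]; congr 1; omega
    have e2 := binom_inv x d hx i
    rw [← hQy, mul_pow] at e2
    rw [e1]
    calc _ = (Q : ZMod (2 ^ T)) ^ (n - 1 - i) * 2 ^ ε i *
          ((Q : ZMod (2 ^ T)) ^ (i + 1) * (y : ZMod (2 ^ T)) ^ (i + 1) *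
            ∑ j ∈ range (d + 1), (-1) ^ j * ((i + j).choose j : ZMod (2 ^ T)) * x ^ j) := by ring
      _ = _ := by rw [e2, mul_one]
  rw [sum_congr rfl hterm]
  push_cast at h
  linear_combination -h

end Pool.Agent.Lib.MP_d88d68_nt
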