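import Mathlib

/-!
# A counting form of Weyl differencing modulo powers of two

`W d a G`: the `d`-fold differences of `G` are those of a polynomial with leading term `a k ^ d`.
If `a = 2 ^ v * odd`, few `k < 2 ^ h` have `G k` modulo `2 ^ T` in an interval of length `2 ^ l`.
-/

namespace Pool.Agent.Lib.MP_d88d68_nt

open Finset

/-- `G` behaves under differencing like a polynomial of degree `d` with leading coefficient `a`. -/
def W : ℕ → ℤ → (ℕ → ℤ) → Prop
  | 0, a, G => ∀ k, G k = a
  | d + 1, a, G => ∀ t : ℕ, W d ((d + 1) * a * t) (fun k => G (k + t) - G k)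

theorem W_one {a : ℤ} {G : ℕ → ℤ} (h : W 1 a G) (t k : ℕ) : G (k + t) - G k = a * t := by
  have := h t k
  simpa using this

/-- Polynomials. -/
theorem W_poly (d : ℕ) (a : ℕ → ℤ) : W d (a d) (fun k => ∑ j ∈ range (d + 1), a j * (k : ℤ) ^ j) := by
  induction d generalizing a with
  | zero => intro k; simp
  | succ d ih =>
    intro t
    have h := ih (fun i => ∑ j ∈ range (d + 2), if i < j then
      a j * ((j.choose i : ℤ) * (t : ℤ) ^ (j - i)) else 0)
    have e1 : (∑ j ∈ range (d + 2), if d < j then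
        a j * ((j.choose d : ℤ) * (t : ℤ) ^ (j - d)) else 0) = ((d : ℤ) + 1) * a (d + 1) * t := by
      rw [sum_range_succ, if_pos (Nat.lt_succ_self d), sum_eq_zero, Nat.choose_succ_self_right]
      · have : d + 1 - d = 1 := by omega
        rw [this]; push_cast; ring
      · intro j hj
        rw [mem_range] at hj
        rw [if_neg (by omega)]
    rw [e1] at h
    have e2 : (fun k : ℕ => ∑ i ∈ range (d + 1), (∑ j ∈ range (d + 2), if i < j then
        a j * ((j.choose i : ℤ) * (t : ℤ) ^ (j - i)) else 0) * (k : ℤ) ^ i) =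
        fun k : ℕ => ∑ j ∈ range (d + 1 + 1), a j * ((k + t : ℕ) : ℤ) ^ j -
          ∑ j ∈ range (d + 1 + 1), a j * (k : ℤ) ^ j := by
      funext k
      rw [← sum_sub_distrib]
      simp only [sum_mul]
      rw [sum_comm]
      refine sum_congr rfl fun j hj => ?_
      rw [mem_range] at hj
      have e5 : ((k + t : ℕ) : ℤ) ^ j - (k : ℤ) ^ j =
          ∑ i ∈ range j, (k : ℤ) ^ i * (t : ℤ) ^ (j - i) * (j.choose i : ℤ) := by
        push_cast
        rw [add_pow, sum_range_succ, Nat.sub_self, pow_zero, Nat.choose_self]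
        simp
      rw [← mul_sub, e5]
      have e3 : ∀ i ∈ range (d + 1), (if i < j then a j * ((j.choose i : ℤ) * (t : ℤ) ^ (j - i))
          else 0) * (k : ℤ) ^ i = if i < j then
            a j * ((k : ℤ) ^ i * (t : ℤ) ^ (j - i) * (j.choose i : ℤ)) else 0 := by
        intro i _
        split_ifs <;> ring
      rw [sum_congr rfl e3, ← sum_filter]
      have e4 : (range (d + 1)).filter (fun i => i < j) = range j := by
        ext i
        simp only [mem_filter, mem_range]
        omega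
      rw [e4, ← mul_sum]
    exact e2 ▸ h

/-- The linear case. -/
theorem count_linear {T l v h : ℕ} {a a' c : ℤ} {G : ℕ → ℤ}
    (hG : ∀ t k : ℕ, G (k + t) - G k = a * t) (ha : a = 2 ^ v * a') (ha' : Odd a') (hv : v ≤ T)
    (hh : T - v ≤ h) (S : Finset ℕ) (z : ℕ → ℤ)
    (hS : ∀ k ∈ S, k < 2 ^ h ∧ c ≤ z k ∧ z k < c + 2 ^ l ∧ (2 : ℤ) ^ T ∣ G k - z k) :
    S.card ≤ 2 ^ (h - (T - v)) * (2 ^ l / 2 ^ v + 1) := by
  have hmod : ∀ k ∈ S, (2 : ℤ) ^ v ∣ G 0 - z k := by
    intro k hk
    have h1 : (2 : ℤ) ^ v ∣ G k - z k := (pow_dvd_pow _ hv).trans (hS k hk).2.2.2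
    have h2 : (2 : ℤ) ^ v ∣ G k - G 0 := by
      have := hG k 0
      rw [zero_add] at this
      rw [this, ha, mul_assoc]
      exact Dvd.intro _ rfl
    have := dvd_sub h1 h2
    have e : G k - z k - (G k - G 0) = G 0 - z k := by ring
    rwa [e] at this
  have hcard : S.card ≤ (range (2 ^ (h - (T - v))) ×ˢ range (2 ^ l / 2 ^ v + 1)).card := by
    refine card_le_card_of_injOn
      (fun k => (k / 2 ^ (T - v), ((z k - c) / 2 ^ v).toNat)) ?_ ?_
    · intro k hk
      obtain ⟨h1, h2, h3, _⟩ := hS k hk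
      simp only [coe_product, coe_range, Set.mem_prod, Set.mem_Iio]
      constructor
      · rw [Nat.div_lt_iff_lt_mul (by positivity), ← pow_add]
        have : h - (T - v) + (T - v) = h := by omega
        rw [this]; exact h1
      · have h4 : (z k - c) / 2 ^ v < (2 : ℤ) ^ l / 2 ^ v + 1 := by
          rw [Int.lt_add_one_iff]
          exact Int.ediv_le_ediv (by positivity) (by linarith)
        have h5 : 0 ≤ (z k - c) / 2 ^ v := Int.ediv_nonneg (by linarith) (by positivity)
        have h6 : (((z k - c) / 2 ^ v).toNat : ℤ) < ((2 ^ l / 2 ^ v + 1 : ℕ) : ℤ) := by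
          rw [Int.toNat_of_nonneg h5]
          push_cast
          exact h4
        exact_mod_cast h6
    · intro k hk k' hk' hkk
      simp only [Prod.mk.injEq] at hkk
      obtain ⟨h1, h2⟩ := hkk
      have b1 := hS k hk
      have b2 := hS k' hk'
      have p1 : 0 ≤ (z k - c) / 2 ^ v := Int.ediv_nonneg (by linarith [b1.2.1]) (by positivity)
      have p2 : 0 ≤ (z k' - c) / 2 ^ v := Int.ediv_nonneg (by linarith [b2.2.1]) (by positivity)
      have h3 : (z k - c) / 2 ^ v = (z k' - c) / 2 ^ v := by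
        rw [← Int.toNat_of_nonneg p1, ← Int.toNat_of_nonneg p2, h2]
      have hz : z k = z k' := by
        have h4 : (2 : ℤ) ^ v ∣ z k - z k' := by
          have := dvd_sub (hmod k' hk') (hmod k hk)
          have e : G 0 - z k' - (G 0 - z k) = z k - z k' := by ring
          rwa [e] at this
        have h5 : |z k - z k'| < 2 ^ v := by
          have e1 := Int.emod_add_mul_ediv (z k - c) (2 ^ v)
          have e2 := Int.emod_add_mul_ediv (z k' - c) (2 ^ v)
          have l1 := Int.emod_nonneg (z k - c) (b := 2 ^ v) (by positivity)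
          have l2 := Int.emod_nonneg (z k' - c) (b := 2 ^ v) (by positivity)
          have u1 := Int.emod_lt_of_pos (z k - c) (b := 2 ^ v) (by positivity)
          have u2 := Int.emod_lt_of_pos (z k' - c) (b := 2 ^ v) (by positivity)
          rw [h3] at e1
          rw [abs_lt]
          constructor <;> linarith
        have := Int.eq_zero_of_abs_lt_dvd h4 h5
        linarith
      -- now `2 ^ T ∣ a (k - k')`
      have h6 : (2 : ℤ) ^ T ∣ a * ((k : ℤ) - k') := by
        have g1 := hG k 0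
        have g2 := hG k' 0
        rw [zero_add] at g1 g2
        have := dvd_sub b1.2.2.2 b2.2.2.2
        have e : G k - z k - (G k' - z k') = a * ((k : ℤ) - k') := by
          rw [hz]; linear_combination g1 - g2
        rwa [e] at this
      have h7 : (2 : ℤ) ^ (T - v) ∣ (k : ℤ) - k' := by
        have e : (2 : ℤ) ^ T = 2 ^ v * 2 ^ (T - v) := by
          rw [← pow_add]; congr 1; omega
        rw [ha, e, mul_assoc] at h6
        have h8 := Int.dvd_of_mul_dvd_mul_left (by positivity) h6
        have hcop : IsCoprime ((2 : ℤ) ^ (T - v)) a' := by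
          apply IsCoprime.pow_left
          obtain ⟨r, hr⟩ := ha'
          exact ⟨-r, 1, by rw [hr]; ring⟩
        exact hcop.dvd_of_dvd_mul_left h8
      have h9 : |(k : ℤ) - k'| < 2 ^ (T - v) := by
        have e1 := Nat.mod_add_div k (2 ^ (T - v))
        have e2 := Nat.mod_add_div k' (2 ^ (T - v))
        have u1 := Nat.mod_lt k (show 0 < 2 ^ (T - v) by positivity)
        have u2 := Nat.mod_lt k' (show 0 < 2 ^ (T - v) by positivity)
        rw [h1] at e1
        generalize k % 2 ^ (T - v) = r1 at e1 u1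
        generalize k' % 2 ^ (T - v) = r2 at e2 u2
        generalize 2 ^ (T - v) * (k' / 2 ^ (T - v)) = w at e1 e2
        have c1 : ((r1 : ℕ) : ℤ) < 2 ^ (T - v) := by exact_mod_cast u1
        have c2 : ((r2 : ℕ) : ℤ) < 2 ^ (T - v) := by exact_mod_cast u2
        rw [← e1, ← e2, abs_lt]
        push_cast
        constructor <;> linarith [Int.natCast_nonneg r1, Int.natCast_nonneg r2]
      have := Int.eq_zero_of_abs_lt_dvd h7 h9
      have : (k : ℤ) = k' := by linarith
      exact_mod_cast this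
  simpa using hcard

/-- A dense set has many pairs with a common difference of small `2`-adic valuation. -/
theorem exists_shift {h x : ℕ} (S : Finset ℕ) (hS : ∀ k ∈ S, k < 2 ^ h) (hx : x + 2 ≤ h)
    (hd : 2 ^ h ≤ S.card * 2 ^ x) :
    ∃ t : ℕ, ¬ 2 ^ (x + 2) ∣ t ∧ 2 ^ h ≤ (S.filter fun k => k + t ∈ S).card * 2 ^ (2 * x + 3) := by
  classical
  by_contra hcon
  push Not at hcon
  set n := S.card with hn
  -- the divisible pairs
  have hB : ((S ×ˢ S).filter fun p => (2 : ℤ) ^ (x + 2) ∣ (p.2 : ℤ) - p.1).card ≤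
      n * 2 ^ (h - (x + 2)) := by
    have h1 : ((S ×ˢ S).filter fun p => (2 : ℤ) ^ (x + 2) ∣ (p.2 : ℤ) - p.1).card ≤
        (S ×ˢ range (2 ^ (h - (x + 2)))).card := by
      refine card_le_card_of_injOn (fun p => (p.1, p.2 / 2 ^ (x + 2))) ?_ ?_
      · intro p hp
        simp only [coe_filter, mem_product, Set.mem_ofPred_eq] at hp
        simp only [coe_product, coe_range, Set.mem_prod, Set.mem_Iio, mem_coe]
        refine ⟨hp.1.1, ?_⟩
        rw [Nat.div_lt_iff_lt_mul (by positivity), ← pow_add]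
        have : h - (x + 2) + (x + 2) = h := by omega
        rw [this]; exact hS _ hp.1.2
      · intro p hp p' hp' hpp
        simp only [coe_filter, mem_product, Set.mem_ofPred_eq] at hp hp'
        simp only [Prod.mk.injEq] at hpp
        obtain ⟨e1, e2⟩ := hpp
        have d1 : (2 : ℤ) ^ (x + 2) ∣ (p.2 : ℤ) - p'.2 := by
          have := dvd_sub hp.2 hp'.2
          have e : (p.2 : ℤ) - p.1 - (p'.2 - p'.1) = p.2 - p'.2 := by rw [e1]; ring
          rwa [e] at this
        have d2 : |(p.2 : ℤ) - p'.2| < 2 ^ (x + 2) := by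
          have f1 := Nat.mod_add_div p.2 (2 ^ (x + 2))
          have f2 := Nat.mod_add_div p'.2 (2 ^ (x + 2))
          have u1 := Nat.mod_lt p.2 (show 0 < 2 ^ (x + 2) by positivity)
          have u2 := Nat.mod_lt p'.2 (show 0 < 2 ^ (x + 2) by positivity)
          rw [e2] at f1
          generalize p.2 % 2 ^ (x + 2) = r1 at f1 u1
          generalize p'.2 % 2 ^ (x + 2) = r2 at f2 u2
          generalize 2 ^ (x + 2) * (p'.2 / 2 ^ (x + 2)) = w at f1 f2
          have c1 : ((r1 : ℕ) : ℤ) < 2 ^ (x + 2) := by exact_mod_cast u1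
          have c2 : ((r2 : ℕ) : ℤ) < 2 ^ (x + 2) := by exact_mod_cast u2
          rw [← f1, ← f2, abs_lt]
          push_cast
          constructor <;> linarith [Int.natCast_nonneg r1, Int.natCast_nonneg r2]
        have := Int.eq_zero_of_abs_lt_dvd d1 d2
        have : (p.2 : ℤ) = p'.2 := by linarith
        exact Prod.ext e1 (by exact_mod_cast this)
    simpa using h1
  have hsum := card_filter_add_card_filter_not (s := S ×ˢ S)
    (fun p : ℕ × ℕ => (2 : ℤ) ^ (x + 2) ∣ (p.2 : ℤ) - p.1)
  rw [card_product, ← hn] at hsum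
  set P := (S ×ˢ S).filter fun p => ¬ (2 : ℤ) ^ (x + 2) ∣ (p.2 : ℤ) - p.1 with hP
  -- the fibres
  have hfib : ∀ c ∈ Ioo (-(2 : ℤ) ^ h) (2 ^ h),
      (P.filter fun p => (p.2 : ℤ) - p.1 = c).card * 2 ^ (2 * x + 3) ≤ 2 ^ h := by
    intro c _
    by_cases hc : (2 : ℤ) ^ (x + 2) ∣ c
    · have : (P.filter fun p => (p.2 : ℤ) - p.1 = c) = ∅ := by
        apply eq_empty_of_forall_notMem
        intro p hp
        rw [mem_filter, hP, mem_filter] at hp
        rw [hp.2] at hp
        exact hp.1.2 hc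
      rw [this]; simp
    · have hnd : ¬ 2 ^ (x + 2) ∣ c.natAbs := by
        intro h1
        apply hc
        have : ((2 ^ (x + 2) : ℕ) : ℤ) ∣ c := Int.natCast_dvd.2 h1
        exact_mod_cast this
      refine le_trans ?_ (hcon c.natAbs hnd).le
      refine Nat.mul_le_mul_right _ ?_
      rcases le_total 0 c with h0 | h0
      · refine card_le_card_of_injOn (fun p => p.1) ?_ ?_
        · intro p hp
          simp only [coe_filter, Set.mem_ofPred_eq, hP, mem_filter, mem_product] at hp ⊢
          refine ⟨hp.1.1.1, ?_⟩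
          have : p.1 + c.natAbs = p.2 := by omega
          rw [this]; exact hp.1.1.2
        · intro p hp p' hp' hpp
          simp only [coe_filter, Set.mem_ofPred_eq] at hp hp' hpp
          have : p.2 = p'.2 := by omega
          exact Prod.ext hpp this
      · refine card_le_card_of_injOn (fun p => p.2) ?_ ?_
        · intro p hp
          simp only [coe_filter, Set.mem_ofPred_eq, hP, mem_filter, mem_product] at hp ⊢
          refine ⟨hp.1.1.2, ?_⟩
          have : p.2 + c.natAbs = p.1 := by omega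
          rw [this]; exact hp.1.1.1
        · intro p hp p' hp' hpp
          simp only [coe_filter, Set.mem_ofPred_eq] at hp hp' hpp
          have : p.1 = p'.1 := by omega
          exact Prod.ext this hpp
  have hmaps : ∀ p ∈ P, (p.2 : ℤ) - p.1 ∈ Ioo (-(2 : ℤ) ^ h) (2 ^ h) := by
    intro p hp
    rw [hP, mem_filter, mem_product] at hp
    have c1 : (p.1 : ℤ) < 2 ^ h := by exact_mod_cast hS _ hp.1.1
    have c2 : (p.2 : ℤ) < 2 ^ h := by exact_mod_cast hS _ hp.1.2
    rw [mem_Ioo]
    constructor <;> linarith [Int.natCast_nonneg p.1, Int.natCast_nonneg p.2]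
  have hPcard : P.card * 2 ^ (2 * x + 3) ≤ 2 * 2 ^ h * 2 ^ h := by
    rw [card_eq_sum_card_fiberwise hmaps, sum_mul]
    refine (sum_le_sum hfib).trans ?_
    rw [sum_const, smul_eq_mul, Int.card_Ioo]
    refine Nat.mul_le_mul_right _ ?_
    have e : ((2 : ℤ) ^ h - -2 ^ h - 1) ≤ ((2 * 2 ^ h : ℕ) : ℤ) := by push_cast; linarith
    exact Int.toNat_le.2 e
  have hp2 : 0 < 2 ^ h := by positivity
  have h4 : 4 * 2 ^ (h - (x + 2)) ≤ n := by
    have e : 2 ^ h = 2 ^ x * (4 * 2 ^ (h - (x + 2))) := by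
      have : h = x + (2 + (h - (x + 2))) := by omega
      conv_lhs => rw [this]
      rw [pow_add, pow_add]; norm_num
    rw [e, mul_comm n] at hd
    exact Nat.le_of_mul_le_mul_left hd (by positivity)
  have h5 : 3 * (n * n) ≤ 4 * P.card := by nlinarith
  have h6 : 2 ^ h * 2 ^ h ≤ (n * n) * 2 ^ (2 * x) := by
    calc 2 ^ h * 2 ^ h ≤ (n * 2 ^ x) * (n * 2 ^ x) := Nat.mul_le_mul hd hd
      _ = (n * n) * 2 ^ (2 * x) := by rw [two_mul, pow_add]; ring
  have h7 : 2 ^ (2 * x + 3) = 8 * 2 ^ (2 * x) := by rw [pow_add]; norm_num; ring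
  rw [h7] at hPcard
  have h8 : 0 < 2 ^ h * 2 ^ h := by positivity
  have h9 : 3 * (2 ^ h * 2 ^ h) ≤ 4 * P.card * 2 ^ (2 * x) := by
    calc 3 * (2 ^ h * 2 ^ h) ≤ 3 * ((n * n) * 2 ^ (2 * x)) := Nat.mul_le_mul_left _ h6
      _ = (3 * (n * n)) * 2 ^ (2 * x) := by ring
      _ ≤ _ := Nat.mul_le_mul_right _ h5
  nlinarith

/-- The counting form of Weyl's inequality. -/
theorem count_poly (d : ℕ) : ∀ (T l h v x : ℕ) (a a' c : ℤ) (G : ℕ → ℤ) (S : Finset ℕ)
    (z : ℕ → ℤ), W (d + 1) a G → a = 2 ^ v * a' → Odd a' → T - v ≤ h →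
    v + 4 ^ (d + 1) * (x + 3) ≤ T → l + 4 ^ (d + 1) * (x + 3) ≤ T →
    (∀ k ∈ S, k < 2 ^ h ∧ c ≤ z k ∧ z k < c + 2 ^ l ∧ (2 : ℤ) ^ T ∣ G k - z k) →
    S.card * 2 ^ x < 2 ^ h := by
  induction d with
  | zero =>
    intro T l h v x a a' c G S z hW ha ha' hh hv hl hS
    have h1 := count_linear (W_one hW) ha ha' (by omega) hh S z hS
    have h2 : 2 ^ l / 2 ^ v * 2 ^ v ≤ 2 ^ l := Nat.div_mul_le_self _ _
    have e1 : 2 ^ l ≤ 2 ^ (T - 12 - 4 * x) := Nat.pow_le_pow_right (by norm_num) (by omega)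
    have e2 : 2 ^ v ≤ 2 ^ (T - 12 - 4 * x) := Nat.pow_le_pow_right (by norm_num) (by omega)
    have h3 : S.card * 2 ^ v ≤ 2 ^ (h - (T - v)) * (2 ^ (T - 12 - 4 * x) * 2) := by
      calc S.card * 2 ^ v ≤ 2 ^ (h - (T - v)) * (2 ^ l / 2 ^ v + 1) * 2 ^ v :=
            Nat.mul_le_mul_right _ h1
        _ = 2 ^ (h - (T - v)) * (2 ^ l / 2 ^ v * 2 ^ v + 2 ^ v) := by ring
        _ ≤ _ := Nat.mul_le_mul_left _ (by omega)
    have h4 : S.card * 2 ^ x * 2 ^ v < 2 ^ h * 2 ^ v := by
      calc S.card * 2 ^ x * 2 ^ v = (S.card * 2 ^ v) * 2 ^ x := by ring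
        _ ≤ 2 ^ (h - (T - v)) * (2 ^ (T - 12 - 4 * x) * 2) * 2 ^ x := Nat.mul_le_mul_right _ h3
        _ = 2 ^ (h - (T - v) + (T - 12 - 4 * x) + 1 + x) := by
            rw [pow_add, pow_add, pow_add]; ring
        _ < 2 ^ (h + v) := Nat.pow_lt_pow_right (by norm_num) (by omega)
        _ = _ := by rw [pow_add]
    exact lt_of_mul_lt_mul_right h4 (Nat.zero_le _)
  | succ d ih =>
    intro T l h v x a a' c G S z hW ha ha' hh hv hl hS
    classical
    by_contra hcon
    push Not at hcon
    have hpow : (d + 2) ≤ 4 ^ (d + 1) := by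
      have := Nat.lt_pow_self (n := d + 1) (a := 4) (by norm_num)
      omega
    have e4 : 4 ^ (d + 1 + 1) = 4 * 4 ^ (d + 1) := by rw [pow_succ]; ring
    rw [e4] at hv hl
    have hxh : x + 2 ≤ h := by
      have h1 : x + 3 ≤ 4 ^ (d + 1) * (x + 3) := Nat.le_mul_of_pos_left _ (by positivity)
      rw [mul_assoc] at hv
      omega
    obtain ⟨t, ht, hS'⟩ := exists_shift S (fun k hk => (hS k hk).1) hxh hcon
    have ht0 : t ≠ 0 := fun h0 => ht (h0 ▸ dvd_zero _)
    obtain ⟨u, o, hu, ho, hub⟩ : ∃ (u : ℕ) (o : ℤ), ((d : ℤ) + 1 + 1) * t = 2 ^ u * o ∧ Odd o ∧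
        u ≤ d + x + 2 := by
      refine ⟨padicValNat 2 ((d + 2) * t), (((d + 2) * t / 2 ^ padicValNat 2 ((d + 2) * t) : ℕ) : ℤ),
        ?_, ?_, ?_⟩
      · have := Nat.mul_div_cancel' (pow_padicValNat_dvd (p := 2) (n := (d + 2) * t))
        have h2 : (((2 ^ padicValNat 2 ((d + 2) * t) *
          ((d + 2) * t / 2 ^ padicValNat 2 ((d + 2) * t)) : ℕ)) : ℤ) = (((d + 2) * t : ℕ) : ℤ) := by
          rw [this]
        push_cast at h2 ⊢
        rw [h2]; ring
      · have hne : (d + 2) * t ≠ 0 := by positivity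
        have : Odd ((d + 2) * t / 2 ^ padicValNat 2 ((d + 2) * t)) := by
          rw [← Nat.not_even_iff_odd, even_iff_two_dvd]
          intro h1
          have h2 : 2 ^ (padicValNat 2 ((d + 2) * t) + 1) ∣ 2 ^ padicValNat 2 ((d + 2) * t) *
              ((d + 2) * t / 2 ^ padicValNat 2 ((d + 2) * t)) := by
            rw [pow_succ]
            exact Nat.mul_dvd_mul_left _ h1
          rw [Nat.mul_div_cancel' pow_padicValNat_dvd] at h2
          exact pow_succ_padicValNat_not_dvd hne h2
        exact_mod_cast this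
      · rw [padicValNat.mul (by omega) ht0]
        have h1 : padicValNat 2 (d + 2) ≤ d + 1 := by
          refine (padicValNat_le_nat_log _).trans ?_
          have : Nat.log 2 (d + 2) < d + 2 := Nat.log_lt_self 2 (by omega)
          omega
        have h2 : padicValNat 2 t < x + 2 := by
          by_contra h3
          push Not at h3
          exact ht ((pow_dvd_pow 2 h3).trans pow_padicValNat_dvd)
        omega
    have hW' := hW t
    have ha2 : (((d + 1 : ℕ) : ℤ) + 1) * a * t = 2 ^ (v + u) * (a' * o) := by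
      rw [ha, pow_add]
      push_cast
      linear_combination (2 : ℤ) ^ v * a' * hu
    have key := ih T (l + 1) h (v + u) (2 * x + 3) _ _ (-2 ^ l)
      (fun k => G (k + t) - G k) (S.filter fun k => k + t ∈ S) (fun k => z (k + t) - z k)
      hW' ha2 (ha'.mul ho) (by omega) (by nlinarith) (by nlinarith) (by
        intro k hk
        rw [mem_filter] at hk
        obtain ⟨a1, a2, a3, a4⟩ := hS k hk.1
        obtain ⟨b1, b2, b3, b4⟩ := hS (k + t) hk.2
        refine ⟨a1, by linarith, ?_, ?_⟩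
        · rw [pow_succ]; linarith
        · have := dvd_sub b4 a4
          have e : G (k + t) - z (k + t) - (G k - z k) = G (k + t) - G k - (z (k + t) - z k) := by
            ring
          rwa [e] at this)
    omega

end Pool.Agent.Lib.MP_d88d68_nt
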