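import Pool.Agent.Lib.MP_d88d68_nt.Expand
import Pool.Agent.Lib.MP_d88d68_nt.Weyl

/-!
# Almost no odd `q` has a trajectory inside `[1, q ^ K]`
-/

namespace Pool.Agent.Lib.MP_d88d68_nt

open Finset

/-- The members of `s` with given exponents and given residue modulo `2 ^ R` are few. -/
theorem card_class {K N x : ℕ} (hK : 1 ≤ K) (hN : 12 * 16 ^ K * (x + 4) ≤ N) {R T : ℕ}
    (hTdef : T = K * N + 4 ^ (2 * K + 1) * (x + 3)) (hRdef : R = T / (2 * K + 2) + 1)
    (n : ℕ) (hn : 1 ≤ n) (ε : ℕ → ℕ) (h0 : ε 0 = 0) (hε : ∀ i, 1 ≤ i → i < n → 1 ≤ ε i)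
    (r : ℕ) (s : Finset ℕ) (μ : ℕ → ℕ)
    (hs : ∀ q ∈ s, Odd q ∧ q < 2 ^ N ∧ q % 2 ^ R = r ∧ μ q < 2 ^ (K * N) ∧
      (∀ i < n, expo q (μ q) i = ε i) ∧ T ≤ expo q (μ q) n) :
    s.card * 2 ^ x < 2 ^ (N - R) := by
  classical
  set L := 4 ^ (2 * K + 1) * (x + 3) with hL
  have h16 : 4 * 16 ^ K = 4 ^ (2 * K + 1) := by
    rw [pow_succ, pow_mul]; norm_num; ring
  have hK2 : 2 * K + 2 ≤ 4 ^ (2 * K + 1) := by
    have := Nat.lt_pow_self (n := 2 * K + 1) (a := 4) (by norm_num)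
    omega
  have hL3 : 3 * (L + 2 * K + 2) ≤ N := by
    refine le_trans ?_ hN
    have : 12 * 16 ^ K * (x + 4) = 3 * (4 ^ (2 * K + 1) * (x + 3) + 4 ^ (2 * K + 1)) := by
      rw [← h16]; ring
    rw [this, ← hL]
    omega
  have hR1 : 1 ≤ R := by rw [hRdef]; exact Nat.le_add_left 1 _
  -- `T ≤ R (2 K + 2)`
  have hTR : T ≤ R * (2 * K + 1 + 1) := by
    have h1 := Nat.lt_mul_div_succ T (show 0 < 2 * K + 2 by omega)
    rw [hRdef, mul_comm]
    exact h1.le
  have hdiv : (2 * K + 2) * (T / (2 * K + 2)) ≤ T := Nat.mul_div_le _ _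
  -- `R (2 K + 1) ≤ K N`
  have hRK : R * (2 * K + 1) ≤ K * N := by
    have h1 : (2 * K + 2) * (R * (2 * K + 1)) ≤ (2 * K + 2) * (K * N) := by
      have e1 : (2 * K + 2) * R ≤ T + (2 * K + 2) := by
        rw [hRdef, mul_add, mul_one]; omega
      have e2 : (2 * K + 2) * (R * (2 * K + 1)) ≤ (T + (2 * K + 2)) * (2 * K + 1) := by
        rw [← mul_assoc]; exact Nat.mul_le_mul_right _ e1
      refine e2.trans ?_
      rw [hTdef]
      have e3 : (2 * K + 1) * (L + 2 * K + 2) ≤ K * N := by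
        calc (2 * K + 1) * (L + 2 * K + 2) ≤ (3 * K) * (L + 2 * K + 2) :=
              Nat.mul_le_mul_right _ (by omega)
          _ = K * (3 * (L + 2 * K + 2)) := by ring
          _ ≤ K * N := Nat.mul_le_mul_left _ hL3
      nlinarith
    exact Nat.le_of_mul_le_mul_left h1 (by omega)
  -- `2 R ≤ N`
  have hRN : 2 * R ≤ N := by
    have h1 : (K + 1) * (2 * R) ≤ (K + 1) * N := by
      have e1 : (2 * K + 2) * R ≤ T + (2 * K + 2) := by
        rw [hRdef, mul_add, mul_one]; omega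
      calc (K + 1) * (2 * R) = (2 * K + 2) * R := by ring
        _ ≤ T + (2 * K + 2) := e1
        _ ≤ (K + 1) * N := by rw [hTdef]; nlinarith
    exact Nat.le_of_mul_le_mul_left h1 (by omega)
  rcases s.eq_empty_or_nonempty with hemp | ⟨q₁, hq₁⟩
  · rw [hemp]; simp
  have hrodd : Odd r := by
    have h1 := hs q₁ hq₁
    rw [← h1.2.2.1]
    have h2 : Odd (q₁ % 2 ^ R) := by
      rw [Nat.odd_iff, Nat.mod_mod_of_dvd _ (dvd_pow_self 2 (by omega))]
      exact Nat.odd_iff.1 h1.1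
    exact h2
  have hTpos : 1 ≤ T := by rw [hTdef]; nlinarith [Nat.pos_of_ne_zero (show N ≠ 0 by omega)]
  obtain ⟨y, hyd, hyodd⟩ : ∃ y : ℤ, (2 : ℤ) ^ T ∣ y * (r : ℤ) - 1 ∧ Odd y := by
    have hcop : IsCoprime ((r : ℤ)) ((2 : ℤ) ^ T) := by
      apply IsCoprime.pow_right
      obtain ⟨w, hw⟩ := hrodd
      exact ⟨1, -w, by rw [hw]; push_cast; ring⟩
    obtain ⟨a, b, hab⟩ := hcop
    refine ⟨a, ⟨-b, by linear_combination hab⟩, ?_⟩
    by_contra hcon
    rw [Int.not_odd_iff_even] at hcon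
    have h1 : Even (a * (r : ℤ) + b * 2 ^ T) := by
      apply Even.add
      · exact hcon.mul_right _
      · exact (Even.pow_of_ne_zero even_two (by omega)).mul_left _
    rw [hab] at h1
    exact absurd h1 (by decide)
  obtain ⟨a', ha', ha'odd⟩ := coef_top ε n R (2 * K + 1) y hyodd hn h0 hε
  -- the set of the `k`
  have hkey : ∀ q ∈ s, q = r + 2 ^ R * (q / 2 ^ R) := by
    intro q hq
    have := Nat.mod_add_div q (2 ^ R)
    rw [(hs q hq).2.2.1] at this
    exact this.symm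
  have hcardS : s.card = (s.image fun q => q / 2 ^ R).card := by
    rw [card_image_of_injOn]
    intro a ha b hb hab
    simp only at hab
    rw [hkey a ha, hkey b hb, hab]
  have hinv : ∀ k ∈ s.image (fun q => q / 2 ^ R), r + 2 ^ R * k ∈ s := by
    intro k hk
    obtain ⟨q, hq, rfl⟩ := mem_image.1 hk
    rw [← hkey q hq]; exact hq
  rw [hcardS]
  refine count_poly (2 * K) T (K * N) (N - R) (R * (2 * K + 1)) x _ a' 0
    (fun k => ∑ j ∈ range (2 * K + 1 + 1), coef ε n R y j * (k : ℤ) ^ j) _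
    (fun k => (μ (r + 2 ^ R * k) : ℤ)) (W_poly (2 * K + 1) (coef ε n R y)) ha' ha'odd
    ?_ ?_ ?_ ?_
  · have e : R * (2 * K + 1 + 1) = R * (2 * K + 1) + R := by ring
    omega
  · rw [← hL, hTdef]; omega
  · rw [← hL, hTdef]
  · intro k hk
    have hq := hs _ (hinv k hk)
    obtain ⟨b1, b2, b3, b4, b5, b6⟩ := hq
    refine ⟨?_, Int.natCast_nonneg _, ?_, ?_⟩
    · have h1 : 2 ^ R * k < 2 ^ R * 2 ^ (N - R) := by
        rw [← pow_add]
        have : R + (N - R) = N := by omega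
        rw [this]; omega
      exact lt_of_mul_lt_mul_left h1 (Nat.zero_le _)
    · rw [zero_add]; exact_mod_cast b4
    · refine expand ε n R (2 * K + 1) T (r : ℤ) y hR1 (by exact_mod_cast hrodd) hTR hyd k
        (μ (r + 2 ^ R * k)) ?_
      have h1 := traj_formula (r + 2 ^ R * k) (μ (r + 2 ^ R * k)) n
      have h2 : 2 ^ T ∣ (r + 2 ^ R * k) ^ n * μ (r + 2 ^ R * k) +
          ∑ i ∈ range n, (r + 2 ^ R * k) ^ (n - 1 - i) *
            2 ^ expo (r + 2 ^ R * k) (μ (r + 2 ^ R * k)) i := by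
        rw [← h1]
        exact Dvd.dvd.mul_right (pow_dvd_pow _ b6) _
      have h3 : ∑ i ∈ range n, (r + 2 ^ R * k) ^ (n - 1 - i) *
            2 ^ expo (r + 2 ^ R * k) (μ (r + 2 ^ R * k)) i =
          ∑ i ∈ range n, (r + 2 ^ R * k) ^ (n - 1 - i) * 2 ^ ε i := by
        refine sum_congr rfl fun i hi => ?_
        rw [b5 i (mem_range.1 hi)]
      rw [h3] at h2
      exact_mod_cast h2

/-- The number of steps is bounded: `E_n ≥ T` for some `n ≤ 2 K + 2`. -/
theorem exists_step {K N q m T : ℕ} (hq : Odd q) (hm : Odd m) (hqN : 2 ^ (N - 1) ≤ q)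
    (hT : T < (N - 1) * (K + 2)) (hT1 : 1 ≤ T) (hb : ∀ j, (C q)^[j] m ≤ q ^ K) :
    ∃ n, 1 ≤ n ∧ n ≤ 2 * K + 2 ∧ T ≤ expo q m n ∧ ∀ i < n, expo q m i < T := by
  classical
  have h : ∃ n, T ≤ expo q m n := ⟨T, le_expo hq hm T⟩
  refine ⟨Nat.find h, ?_, ?_, Nat.find_spec h, fun k hk => not_le.1 (Nat.find_min h hk)⟩
  · rw [Nat.one_le_iff_ne_zero]
    intro h0
    have := Nat.find_spec h
    rw [h0, expo_zero] at this
    omega
  · by_contra hcon
    push Not at hcon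
    have h1 : expo q m (2 * K + 2) < T := not_le.1 (Nat.find_min h hcon)
    have h2 := growth_le q m (2 * K + 2)
    have h3 : q ^ (2 * K + 2) ≤ 2 ^ T * q ^ K := by
      calc q ^ (2 * K + 2) ≤ q ^ (2 * K + 2) * m := Nat.le_mul_of_pos_right _ hm.pos
        _ ≤ 2 ^ expo q m (2 * K + 2) * (C q)^[2 * K + 2] m := h2
        _ ≤ 2 ^ T * q ^ K := Nat.mul_le_mul (Nat.pow_le_pow_right (by norm_num) h1.le) (hb _)
    have h4 : q ^ (2 * K + 2) = q ^ (K + 2) * q ^ K := by rw [← pow_add]; congr 1; ring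
    rw [h4] at h3
    have h5 : q ^ (K + 2) ≤ 2 ^ T := Nat.le_of_mul_le_mul_right h3 (pow_pos hq.pos _)
    have h6 : 2 ^ ((N - 1) * (K + 2)) ≤ 2 ^ T := by
      rw [pow_mul]
      exact (Nat.pow_le_pow_left hqN _).trans h5
    have h7 := (Nat.pow_le_pow_iff_right (by norm_num)).1 h6
    omega

/-- The dyadic block. -/
theorem card_trapped_block {K N x : ℕ} (hK : 1 ≤ K) (hN : 12 * 16 ^ K * (x + 4) ≤ N)
    (s : Finset ℕ) (hs : ∀ q ∈ s, Odd q ∧ 2 ^ (N - 1) ≤ q ∧ q < 2 ^ N ∧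
      ∃ m, Odd m ∧ ∀ j, (C q)^[j] m ≤ q ^ K) :
    s.card * 2 ^ x ≤ (2 * K + 3) * ((K + 1) * N) ^ (2 * K + 2) * 2 ^ N := by
  classical
  set L := 4 ^ (2 * K + 1) * (x + 3) with hL
  set T := K * N + L with hT
  set R := T / (2 * K + 2) + 1 with hR
  have h16 : 4 * 16 ^ K = 4 ^ (2 * K + 1) := by
    rw [pow_succ, pow_mul]; norm_num; ring
  have hK2 : 2 * K + 2 ≤ 4 ^ (2 * K + 1) := by
    have := Nat.lt_pow_self (n := 2 * K + 1) (a := 4) (by norm_num)
    omega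
  have hL3 : 3 * (L + 2 * K + 2) ≤ N := by
    refine le_trans ?_ hN
    have : 12 * 16 ^ K * (x + 4) = 3 * (4 ^ (2 * K + 1) * (x + 3) + 4 ^ (2 * K + 1)) := by
      rw [← h16]; ring
    rw [this, ← hL]
    omega
  have hT1 : 1 ≤ T := by rw [hT]; nlinarith
  have hTN : T ≤ (K + 1) * N := by rw [hT]; nlinarith
  have hT2 : T < (N - 1) * (K + 2) := by
    obtain ⟨N', rfl⟩ : ∃ N', N = N' + 1 := Nat.exists_eq_succ_of_ne_zero (by omega)
    rw [hT]
    simp only [Nat.add_sub_cancel]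
    nlinarith
  have hRN : R ≤ N := by
    have h1 : (2 * K + 2) * (T / (2 * K + 2)) ≤ T := Nat.mul_div_le _ _
    have h2 : T / (2 * K + 2) < N := by
      rw [Nat.div_lt_iff_lt_mul (by omega)]
      nlinarith
    omega
  choose! μ hμ using fun q (hq : q ∈ s) => (hs q hq).2.2.2
  choose! ν hν using fun q (hq : q ∈ s) =>
    exists_step (hs q hq).1 (hμ q hq).1 (hs q hq).2.1 hT2 hT1 (hμ q hq).2
  -- the signature
  let sig : ℕ → ℕ × (Fin (2 * K + 2) → ℕ) × ℕ := fun q =>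
    (ν q, fun i => if (i : ℕ) < ν q then expo q (μ q) i else 0, q % 2 ^ R)
  let tgt : Finset (ℕ × (Fin (2 * K + 2) → ℕ) × ℕ) :=
    range (2 * K + 3) ×ˢ (Fintype.piFinset fun _ => range T) ×ˢ range (2 ^ R)
  have hmaps : ∀ q ∈ s, sig q ∈ tgt := by
    intro q hq
    obtain ⟨a1, a2, a3, a4⟩ := hν q hq
    simp only [tgt, sig, mem_product, mem_range, Fintype.mem_piFinset]
    refine ⟨by omega, fun i => ?_, Nat.mod_lt _ (by positivity)⟩
    split_ifs with h
    · exact a4 _ h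
    · exact hT1
  have hcard : tgt.card = (2 * K + 3) * (T ^ (2 * K + 2) * 2 ^ R) := by
    simp [tgt, Fintype.card_piFinset]
  have hfib : ∀ c ∈ tgt, (s.filter fun q => sig q = c).card * 2 ^ x ≤ 2 ^ (N - R) := by
    rintro ⟨n, ε, r⟩ _
    rcases (s.filter fun q => sig q = (n, ε, r)).eq_empty_or_nonempty with he | ⟨q₁, hq₁⟩
    · rw [he]; simp
    rw [mem_filter] at hq₁
    have hsig : ∀ q ∈ s.filter (fun q => sig q = (n, ε, r)), q ∈ s ∧ ν q = n ∧
        (∀ i (hi : i < 2 * K + 2), (if i < ν q then expo q (μ q) i else 0) = ε ⟨i, hi⟩) ∧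
        q % 2 ^ R = r := by
      intro q hq
      rw [mem_filter] at hq
      have h := hq.2
      simp only [sig, Prod.mk.injEq] at h
      refine ⟨hq.1, h.1, fun i hi => ?_, h.2.2⟩
      have := congrFun h.2.1 ⟨i, hi⟩
      exact this
    have hn1 := hν q₁ hq₁.1
    have hs1 := hsig q₁ (mem_filter.2 hq₁)
    rw [hs1.2.1] at hn1
    refine (card_class (K := K) (N := N) (x := x) hK hN (R := R) (T := T) rfl rfl n hn1.1
      (fun i => if hi : i < 2 * K + 2 then ε ⟨i, hi⟩ else 0) ?_ ?_ r _ μ ?_).le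
    · have h1 := hs1.2.2.1 0 (by omega)
      rw [dif_pos (by omega), ← h1]
      split_ifs
      · exact expo_zero _ _
      · rfl
    · intro i hi1 hi2
      have h1 := hs1.2.2.1 i (by omega)
      rw [dif_pos (by omega), ← h1, hs1.2.1, if_pos hi2]
      exact hi1.trans (le_expo (hs q₁ hq₁.1).1 (hμ q₁ hq₁.1).1 i)
    · intro q hq
      obtain ⟨b1, b2, b3, b4⟩ := hsig q hq
      obtain ⟨c1, c2, c3, _⟩ := hs q b1
      have d := hν q b1
      refine ⟨c1, c3, b4, ?_, ?_, ?_⟩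
      · have h1 : μ q ≤ q ^ K := (hμ q b1).2 0
        refine h1.trans_lt ?_
        rw [mul_comm, pow_mul]
        exact Nat.pow_lt_pow_left c3 (by omega)
      · intro i hi
        have hi2 : i < 2 * K + 2 := by omega
        rw [dif_pos hi2, ← b3 i hi2, b2, if_pos hi]
      · rw [← b2]; exact d.2.2.1
  rw [card_eq_sum_card_fiberwise hmaps, sum_mul]
  refine (sum_le_sum hfib).trans ?_
  rw [sum_const, smul_eq_mul, hcard]
  calc (2 * K + 3) * (T ^ (2 * K + 2) * 2 ^ R) * 2 ^ (N - R) =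
        (2 * K + 3) * T ^ (2 * K + 2) * (2 ^ R * 2 ^ (N - R)) := by ring
    _ = (2 * K + 3) * T ^ (2 * K + 2) * 2 ^ N := by
        rw [← pow_add]
        congr 3
        omega
    _ ≤ _ := by
        apply Nat.mul_le_mul_right
        apply Nat.mul_le_mul_left
        exact Nat.pow_le_pow_left hTN _

end Pool.Agent.Lib.MP_d88d68_nt
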