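import Pool.Agent.Lib.MP_d88d68_nt.Count
import Pool.Agent.Lib.MP_d88d68_nt.Trap

/-!
# The three counting theorems in their final form
-/

namespace Pool.Agent.Lib.MP_d88d68_nt

open Finset

theorem ncard_le_of_finset {P : ℕ → Prop} {N : ℕ} {b : ℝ}
    (h : ∀ s : Finset ℕ, (∀ q ∈ s, q < 2 ^ N ∧ P q) → (s.card : ℝ) ≤ b) :
    (({q : ℕ | q < 2 ^ N ∧ P q}.ncard : ℕ) : ℝ) ≤ b := by
  classical
  have hfin : {q : ℕ | q < 2 ^ N ∧ P q}.Finite :=
    (Set.finite_Iio (2 ^ N)).subset fun q hq => hq.1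
  rw [Set.ncard_eq_toFinset_card _ hfin]
  apply h
  intro q hq
  rw [Set.Finite.mem_toFinset] at hq
  exact hq

/-- The dyadic block, real form. -/
theorem card_block_real {K L : ℕ} (hK : 1 ≤ K) (s : Finset ℕ)
    (hs : ∀ q ∈ s, Odd q ∧ 2 ^ (L - 1) ≤ q ∧ q < 2 ^ L ∧
      ∃ m, Odd m ∧ ∀ j, (C q)^[j] m ≤ q ^ K) (hL : 1 ≤ L) :
    (s.card : ℝ) ≤ 32 * (2 * K + 3) * ((K + 1) * L) ^ (2 * K + 2) *
      2 ^ ((L : ℝ) * (1 - 1 / (12 * 16 ^ K))) := by
  set D : ℕ := 12 * 16 ^ K with hD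
  have hDpos : 0 < D := by positivity
  have hDr : ((D : ℕ) : ℝ) = 12 * 16 ^ K := by rw [hD]; push_cast; ring
  have hDr0 : (0 : ℝ) < (D : ℝ) := by exact_mod_cast hDpos
  have hexp : (L : ℝ) * (1 - 1 / (12 * 16 ^ K)) = L - L / D := by
    rw [← hDr]; field_simp
  rw [hexp]
  have hone : (1 : ℝ) ≤ ((K + 1) * L) ^ (2 * K + 2) := by
    apply one_le_pow₀
    have h1 : (1 : ℝ) ≤ L := by exact_mod_cast hL
    have h2 : (0 : ℝ) ≤ K := Nat.cast_nonneg _
    nlinarith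
  by_cases hbig : D * 4 ≤ L
  · obtain ⟨x, hx⟩ : ∃ x, L / D = x + 4 := by
      have : 4 ≤ L / D := by
        rw [Nat.le_div_iff_mul_le hDpos]; linarith
      exact ⟨L / D - 4, by omega⟩
    have h1 : 12 * 16 ^ K * (x + 4) ≤ L := by
      rw [← hD, ← hx]; exact Nat.mul_div_le _ _
    have h2 := card_trapped_block hK h1 s hs
    have h3 : (L : ℝ) / D < x + 5 := by
      rw [div_lt_iff₀ hDr0]
      have := Nat.lt_mul_div_succ L hDpos
      rw [hx] at this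
      have h4 : (L : ℝ) < (D : ℝ) * ((x + 4 + 1 : ℕ) : ℝ) := by exact_mod_cast this
      push_cast at h4
      linarith
    have h4 : (s.card : ℝ) * 2 ^ x ≤ (2 * K + 3) * ((K + 1) * L) ^ (2 * K + 2) * 2 ^ L := by
      exact_mod_cast h2
    have h5 : (2 : ℝ) ^ L ≤ 32 * 2 ^ ((L : ℝ) - L / D) * 2 ^ x := by
      have e : (32 : ℝ) * 2 ^ ((L : ℝ) - L / D) * 2 ^ x = 2 ^ ((5 : ℝ) + (L - L / D) + x) := by
        rw [Real.rpow_add (by norm_num), Real.rpow_add (by norm_num), Real.rpow_natCast]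
        norm_num
      rw [e, ← Real.rpow_natCast]
      apply Real.rpow_le_rpow_of_exponent_le (by norm_num)
      linarith
    have hx0 : (0 : ℝ) < 2 ^ x := by positivity
    refine le_of_mul_le_mul_right (h4.trans ?_) hx0
    have h6 : (0 : ℝ) ≤ (2 * K + 3) * ((K + 1) * L) ^ (2 * K + 2) := by positivity
    calc ((2 : ℝ) * K + 3) * ((K + 1) * L) ^ (2 * K + 2) * 2 ^ L ≤
          ((2 : ℝ) * K + 3) * ((K + 1) * L) ^ (2 * K + 2) *
            (32 * 2 ^ ((L : ℝ) - L / D) * 2 ^ x) := mul_le_mul_of_nonneg_left h5 h6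
      _ = _ := by ring
  · push Not at hbig
    have h1 : (s.card : ℝ) ≤ 2 ^ L := by
      have : s.card ≤ 2 ^ L := by
        have h2 : s ⊆ range (2 ^ L) := fun q hq => mem_range.2 (hs q hq).2.2.1
        simpa using card_le_card h2
      exact_mod_cast this
    have h3 : (L : ℝ) / D < 4 := by
      rw [div_lt_iff₀ hDr0]
      have : (L : ℝ) < ((D * 4 : ℕ) : ℝ) := by exact_mod_cast hbig
      push_cast at this
      linarith
    have h5 : (2 : ℝ) ^ L ≤ 32 * 2 ^ ((L : ℝ) - L / D) := by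
      have e : (32 : ℝ) * 2 ^ ((L : ℝ) - L / D) = 2 ^ ((5 : ℝ) + (L - L / D)) := by
        rw [Real.rpow_add (by norm_num)]
        norm_num
      rw [e, ← Real.rpow_natCast]
      apply Real.rpow_le_rpow_of_exponent_le (by norm_num)
      linarith
    refine h1.trans (h5.trans ?_)
    have h6 : (0 : ℝ) < 2 ^ ((L : ℝ) - L / D) := by positivity
    have h7 : (1 : ℝ) ≤ (2 * K + 3) * ((K + 1) * L) ^ (2 * K + 2) := by
      have : (0 : ℝ) ≤ K := Nat.cast_nonneg _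
      nlinarith
    calc (32 : ℝ) * 2 ^ ((L : ℝ) - L / D) = 1 * (32 * 2 ^ ((L : ℝ) - L / D)) := by ring
      _ ≤ ((2 * K + 3) * ((K + 1) * L) ^ (2 * K + 2)) * (32 * 2 ^ ((L : ℝ) - L / D)) :=
          mul_le_mul_of_nonneg_right h7 (by positivity)
      _ = _ := by ring

/-- Almost no odd `q` has a trajectory inside `[1, q ^ K]`. -/
theorem card_trapped {K N : ℕ} (hK : 1 ≤ K) (s : Finset ℕ)
    (hs : ∀ q ∈ s, q < 2 ^ N ∧ Odd q ∧ ∃ m, Odd m ∧ ∀ j, (C q)^[j] m ≤ q ^ K) :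
    (s.card : ℝ) ≤ 96 * ((K + 1) * N) ^ (2 * K + 3) *
      2 ^ ((N : ℝ) * (1 - 1 / (12 * 16 ^ K))) := by
  classical
  have hmaps : ∀ q ∈ s, Nat.log 2 q + 1 ∈ Icc 1 N := by
    intro q hq
    obtain ⟨h1, h2, _⟩ := hs q hq
    rw [mem_Icc]
    refine ⟨Nat.le_add_left _ _, ?_⟩
    exact Nat.log_lt_of_lt_pow h2.pos.ne' h1
  rw [card_eq_sum_card_fiberwise hmaps]
  push_cast
  have hpos1 : (0 : ℝ) ≤ 1 - 1 / (12 * 16 ^ K) := by
    rw [sub_nonneg, div_le_one (by positivity)]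
    have : (1 : ℝ) ≤ 16 ^ K := one_le_pow₀ (by norm_num)
    linarith
  have hb : ∀ L ∈ Icc 1 N, ((s.filter fun q => Nat.log 2 q + 1 = L).card : ℝ) ≤
      32 * (2 * K + 3) * ((K + 1) * N) ^ (2 * K + 2) *
        2 ^ ((N : ℝ) * (1 - 1 / (12 * 16 ^ K))) := by
    intro L hL
    rw [mem_Icc] at hL
    have hLN : (L : ℝ) ≤ N := by exact_mod_cast hL.2
    refine (card_block_real hK (s.filter fun q => Nat.log 2 q + 1 = L) ?_ hL.1).trans ?_
    · intro q hq
      rw [mem_filter] at hq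
      obtain ⟨h1, h2, h3⟩ := hs q hq.1
      refine ⟨h2, ?_, ?_, h3⟩
      · have : L - 1 = Nat.log 2 q := by omega
        rw [this]
        exact Nat.pow_log_le_self 2 h2.pos.ne'
      · rw [← hq.2]
        exact Nat.lt_pow_succ_log_self (by norm_num) q
    · have e1 : ((K + 1 : ℝ) * L) ^ (2 * K + 2) ≤ ((K + 1) * N) ^ (2 * K + 2) := by
        apply pow_le_pow_left₀ (by positivity)
        exact mul_le_mul_of_nonneg_left hLN (by positivity)
      have e2 : (2 : ℝ) ^ ((L : ℝ) * (1 - 1 / (12 * 16 ^ K))) ≤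
          2 ^ ((N : ℝ) * (1 - 1 / (12 * 16 ^ K))) := by
        apply Real.rpow_le_rpow_of_exponent_le (by norm_num)
        exact mul_le_mul_of_nonneg_right hLN hpos1
      apply mul_le_mul _ e2 (by positivity) (by positivity)
      exact mul_le_mul_of_nonneg_left e1 (by positivity)
  refine (sum_le_sum hb).trans ?_
  rw [sum_const, nsmul_eq_mul, Nat.card_Icc]
  simp only [add_tsub_cancel_right]
  set E : ℝ := 2 ^ ((N : ℝ) * (1 - 1 / (12 * 16 ^ K))) with hE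
  have hE0 : 0 < E := by positivity
  have hK0 : (0 : ℝ) ≤ K := Nat.cast_nonneg _
  have hN0 : (0 : ℝ) ≤ N := Nat.cast_nonneg _
  have hp0 : (0 : ℝ) ≤ ((K + 1 : ℝ) * N) ^ (2 * K + 2) := by positivity
  calc (N : ℝ) * (32 * (2 * K + 3) * ((K + 1) * N) ^ (2 * K + 2) * E) =
        32 * ((2 * K + 3) * N) * (((K + 1) * N) ^ (2 * K + 2) * E) := by ring
    _ ≤ 32 * (3 * ((K + 1) * N)) * (((K + 1) * N) ^ (2 * K + 2) * E) := by
        apply mul_le_mul_of_nonneg_right _ (by positivity)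
        nlinarith
    _ = 96 * ((K + 1) * N) ^ (2 * K + 3) * E := by ring

end Pool.Agent.Lib.MP_d88d68_nt
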