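import Pool.Agent.Lib.MP_d88d68_nt.Count

/-!
# Exponent patterns
-/

namespace Pool.Agent.Lib.MP_d88d68_nt

open Finset

theorem expo_succ_le_of_sums' {q q' m m' N j : ℕ} (hq : Odd q) (hq' : Odd q') (hm : Odd m)
    (hm' : Odd m') (hS : sums q m N = sums q' m' N) (he : expo q m j = expo q' m' j)
    (hlt : expo q m (j + 1) < N) : expo q' m' (j + 1) ≤ expo q m (j + 1) := by
  have h1 : expo q m (j + 1) ∈ sums q m N :=
    mem_sums.2 ⟨⟨(by have := expo_lt_succ hq hm j; omega), hlt⟩, _, rfl⟩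
  rw [hS, mem_sums] at h1
  obtain ⟨_, i, hi⟩ := h1
  have h2 : expo q' m' j < expo q' m' i := by
    rw [hi, ← he]; exact expo_lt_succ hq hm j
  have h3 : j < i := (expo_strictMono hq' hm').lt_iff_lt.1 h2
  rw [← hi]
  exact (expo_strictMono hq' hm').monotone h3

/-- The set of the sums below `N` determines these sums in their order. -/
theorem expo_eq_of_sums_eq' {q q' m m' N : ℕ} (hq : Odd q) (hq' : Odd q') (hm : Odd m)
    (hm' : Odd m') (hS : sums q m N = sums q' m' N) (i : ℕ) (hlt : expo q m i < N) :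
    expo q' m' i = expo q m i := by
  induction i with
  | zero => rw [expo_zero, expo_zero]
  | succ i ih =>
    have h1 := ih ((expo_lt_succ hq hm i).trans hlt)
    have h2 := expo_succ_le_of_sums' hq hq' hm hm' hS h1.symm hlt
    exact le_antisymm h2 (expo_succ_le_of_sums' hq' hq hm' hm hS.symm h1 (h2.trans_lt hlt))

/-- If the trajectory of `m` is at most `q ^ j` after `K + 1 + j` steps, then it makes at least
`(N - 1) (K + 1)` halvings in these steps. -/
theorem le_expo_of_le' {K N q m T j : ℕ} (hq : Odd q) (hm : Odd m) (hqN : 2 ^ (N - 1) ≤ q)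
    (hT : T ≤ (N - 1) * (K + 1)) (hb : (C q)^[K + 1 + j] m ≤ q ^ j) :
    T ≤ expo q m (K + 1 + j) := by
  have h2 := growth_le q m (K + 1 + j)
  have h3 : q ^ (K + 1) * q ^ j ≤ 2 ^ expo q m (K + 1 + j) * q ^ j := by
    calc q ^ (K + 1) * q ^ j = q ^ (K + 1 + j) := by rw [← pow_add]
      _ ≤ q ^ (K + 1 + j) * m := Nat.le_mul_of_pos_right _ hm.pos
      _ ≤ 2 ^ expo q m (K + 1 + j) * (C q)^[K + 1 + j] m := h2
      _ ≤ _ := Nat.mul_le_mul_left _ hb
  have h5 : q ^ (K + 1) ≤ 2 ^ expo q m (K + 1 + j) :=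
    Nat.le_of_mul_le_mul_right h3 (pow_pos hq.pos _)
  have h6 : 2 ^ ((N - 1) * (K + 1)) ≤ 2 ^ expo q m (K + 1 + j) := by
    rw [pow_mul]
    exact (Nat.pow_le_pow_left hqN _).trans h5
  exact hT.trans ((Nat.pow_le_pow_iff_right (by norm_num)).1 h6)

/-- The number of subsets of `[1, T - 1]` with at most `k` elements. -/
theorem card_small_subsets' (T k : ℕ) :
    ((Ico 1 T).powerset.filter fun t => t.card ≤ k).card ≤
      ∑ i ∈ range (k + 1), (T - 1).choose i := by
  classical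
  have h2 : ((Ico 1 T).powerset.filter fun t => t.card ≤ k) ⊆
      (range (k + 1)).biUnion fun i => powersetCard i (Ico 1 T) := by
    intro t ht
    rw [mem_filter, mem_powerset] at ht
    rw [mem_biUnion]
    exact ⟨t.card, mem_range.2 (Nat.lt_succ_of_le ht.2), mem_powersetCard.2 ⟨ht.1, rfl⟩⟩
  refine (card_le_card h2).trans (card_biUnion_le.trans ?_)
  refine sum_le_sum fun i _ => ?_
  rw [card_powersetCard]
  simp

theorem finset_of_ncard {P : ℕ → Prop} {N : ℕ} {b : ℝ}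
    (h : ∀ s : Finset ℕ, (∀ q ∈ s, q < 2 ^ N ∧ P q) → (s.card : ℝ) ≤ b) :
    (({q : ℕ | q < 2 ^ N ∧ P q}.ncard : ℕ) : ℝ) ≤ b := by
  classical
  have hfin : {q : ℕ | q < 2 ^ N ∧ P q}.Finite :=
    (Set.finite_Iio (2 ^ N)).subset fun q hq => hq.1
  rw [Set.ncard_eq_toFinset_card _ hfin]
  apply h
  intro q hq
  rw [Set.Finite.mem_toFinset] at hq
  exact hq

end Pool.Agent.Lib.MP_d88d68_nt
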