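import Pool.Agent.Lib.MP_d88d68_nt.Count
import Pool.Agent.Lib.MP_d88d68_nt.Trap

/-!
# Uniform expansion: all starts `m ≤ q ^ K`, the first `J` steps
-/

namespace Pool.Agent.Lib.MP_d88d68_nt

open Finset

theorem expo_succ_le_of_sums {q q' m m' N j : ℕ} (hq : Odd q) (hq' : Odd q') (hm : Odd m)
    (hm' : Odd m') (hS : sums q m N = sums q' m' N) (he : expo q m j = expo q' m' j)
    (hlt : expo q m (j + 1) < N) : expo q' m' (j + 1) ≤ expo q m (j + 1) := by
  have h1 : expo q m (j + 1) ∈ sums q m N :=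
    mem_sums.2 ⟨⟨(by have := expo_lt_succ hq hm j; omega), hlt⟩, _, rfl⟩
  rw [hS, mem_sums] at h1
  obtain ⟨_, i, hi⟩ := h1
  have h2 : expo q' m' j < expo q' m' i := by
    rw [hi, ← he]; exact expo_lt_succ hq hm j
  have h3 : j < i := (expo_strictMono hq' hm').lt_iff_lt.1 h2
  rw [← hi]
  exact (expo_strictMono hq' hm').monotone h3

/-- The set of the sums below `N` determines these sums in their order. -/
theorem expo_eq_of_sums_eq {q q' m m' N : ℕ} (hq : Odd q) (hq' : Odd q') (hm : Odd m)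
    (hm' : Odd m') (hS : sums q m N = sums q' m' N) (i : ℕ) (hlt : expo q m i < N) :
    expo q' m' i = expo q m i := by
  induction i with
  | zero => rw [expo_zero, expo_zero]
  | succ i ih =>
    have h1 := ih ((expo_lt_succ hq hm i).trans hlt)
    have h2 := expo_succ_le_of_sums hq hq' hm hm' hS h1.symm hlt
    exact le_antisymm h2 (expo_succ_le_of_sums hq' hq hm' hm hS.symm h1 (h2.trans_lt hlt))

/-- If the trajectory of `m` is at most `q ^ j` after `K + 1 + j` steps, then it makes at least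
`(N - 1) (K + 1)` halvings in these steps. -/
theorem le_expo_of_le {K N q m T j : ℕ} (hq : Odd q) (hm : Odd m) (hqN : 2 ^ (N - 1) ≤ q)
    (hT : T ≤ (N - 1) * (K + 1)) (hb : (C q)^[K + 1 + j] m ≤ q ^ j) :
    T ≤ expo q m (K + 1 + j) := by
  have h2 := growth_le q m (K + 1 + j)
  have h3 : q ^ (K + 1) * q ^ j ≤ 2 ^ expo q m (K + 1 + j) * q ^ j := by
    calc q ^ (K + 1) * q ^ j = q ^ (K + 1 + j) := by rw [← pow_add]
      _ ≤ q ^ (K + 1 + j) * m := Nat.le_mul_of_pos_right _ hm.pos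
      _ ≤ 2 ^ expo q m (K + 1 + j) * (C q)^[K + 1 + j] m := h2
      _ ≤ _ := Nat.mul_le_mul_left _ hb
  have h5 : q ^ (K + 1) ≤ 2 ^ expo q m (K + 1 + j) :=
    Nat.le_of_mul_le_mul_right h3 (pow_pos hq.pos _)
  have h6 : 2 ^ ((N - 1) * (K + 1)) ≤ 2 ^ expo q m (K + 1 + j) := by
    rw [pow_mul]
    exact (Nat.pow_le_pow_left hqN _).trans h5
  exact hT.trans ((Nat.pow_le_pow_iff_right (by norm_num)).1 h6)

/-- The number of subsets of `[1, T - 1]` with at most `k` elements. -/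
theorem card_small_subsets (T k : ℕ) :
    ((Ico 1 T).powerset.filter fun t => t.card ≤ k).card ≤
      ∑ i ∈ range (k + 1), (T - 1).choose i := by
  classical
  have h2 : ((Ico 1 T).powerset.filter fun t => t.card ≤ k) ⊆
      (range (k + 1)).biUnion fun i => powersetCard i (Ico 1 T) := by
    intro t ht
    rw [mem_filter, mem_powerset] at ht
    rw [mem_biUnion]
    exact ⟨t.card, mem_range.2 (Nat.lt_succ_of_le ht.2), mem_powersetCard.2 ⟨ht.1, rfl⟩⟩
  refine (card_le_card h2).trans (card_biUnion_le.trans ?_)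
  refine sum_le_sum fun i _ => ?_
  rw [card_powersetCard]
  simp

/-- The dyadic block. -/
theorem card_start_block {K J N x : ℕ} (hK : 1 ≤ K) (hN : 12 * 16 ^ K * (x + 4) ≤ N)
    (s : Finset ℕ) (hs : ∀ q ∈ s, Odd q ∧ 2 ^ (N - 1) ≤ q ∧ q < 2 ^ N ∧
      ∃ m, Odd m ∧ m ≤ q ^ K ∧ ∃ j ≤ J, (C q)^[K + 1 + j] m ≤ q ^ j) :
    s.card * 2 ^ x ≤ (∑ i ∈ range (K + J + 1), ((K + 1) * N).choose i) * 2 ^ N := by
  classical
  set L := 4 ^ (2 * K + 1) * (x + 3) with hL
  set T := K * N + L with hT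
  set R := T / (2 * K + 2) + 1 with hR
  have h16 : 4 * 16 ^ K = 4 ^ (2 * K + 1) := by
    rw [pow_succ, pow_mul]; norm_num; ring
  have hK2 : 2 * K + 2 ≤ 4 ^ (2 * K + 1) := by
    have := Nat.lt_pow_self (n := 2 * K + 1) (a := 4) (by norm_num)
    omega
  have hL3 : 3 * (L + 2 * K + 2) ≤ N := by
    refine le_trans ?_ hN
    have : 12 * 16 ^ K * (x + 4) = 3 * (4 ^ (2 * K + 1) * (x + 3) + 4 ^ (2 * K + 1)) := by
      rw [← h16]; ring
    rw [this, ← hL]
    omega
  have hT1 : 1 ≤ T := by rw [hT]; nlinarith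
  have hTN : T - 1 ≤ (K + 1) * N := by
    have : T ≤ (K + 1) * N := by rw [hT]; nlinarith
    omega
  have hT2 : T ≤ (N - 1) * (K + 1) := by
    obtain ⟨N', rfl⟩ : ∃ N', N = N' + 1 := Nat.exists_eq_succ_of_ne_zero (by omega)
    rw [hT]
    simp only [Nat.add_sub_cancel]
    nlinarith
  have hRN : R ≤ N := by
    have h1 : (2 * K + 2) * (T / (2 * K + 2)) ≤ T := Nat.mul_div_le _ _
    have h2 : T / (2 * K + 2) < N := by
      rw [Nat.div_lt_iff_lt_mul (by omega)]
      nlinarith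
    omega
  choose! μ hμ using fun q (hq : q ∈ s) => (hs q hq).2.2.2
  -- the step with `E_n ≥ T`
  have hstep : ∀ q ∈ s, ∃ n, 1 ≤ n ∧ n ≤ K + 1 + J ∧ T ≤ expo q (μ q) n ∧
      ∀ i < n, expo q (μ q) i < T := by
    intro q hq
    obtain ⟨b1, b2, j, hj, b3⟩ := hμ q hq
    have h1 := le_expo_of_le (hs q hq).1 b1 (hs q hq).2.1 hT2 b3
    have h : ∃ n, T ≤ expo q (μ q) n := ⟨_, h1⟩
    refine ⟨Nat.find h, ?_, (Nat.find_min' h h1).trans (by omega), Nat.find_spec h,
      fun k hk => not_le.1 (Nat.find_min h hk)⟩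
    rw [Nat.one_le_iff_ne_zero]
    intro h0
    have := Nat.find_spec h
    rw [h0, expo_zero] at this
    omega
  choose! ν hν using hstep
  -- the signature
  let sig : ℕ → Finset ℕ × ℕ := fun q => (sums q (μ q) T, q % 2 ^ R)
  let tgt : Finset (Finset ℕ × ℕ) :=
    ((Ico 1 T).powerset.filter fun t => t.card ≤ K + J) ×ˢ range (2 ^ R)
  have hmaps : ∀ q ∈ s, sig q ∈ tgt := by
    intro q hq
    obtain ⟨a1, a2, a3, a4⟩ := hν q hq
    simp only [tgt, sig, mem_product, mem_range, mem_filter, mem_powerset]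
    refine ⟨⟨sums_subset _ _ _, ?_⟩, Nat.mod_lt _ (by positivity)⟩
    refine card_sums_le (hs q hq).1 (hμ q hq).1 (a3.trans ?_)
    exact (expo_strictMono (hs q hq).1 (hμ q hq).1).monotone (by omega)
  have hcard : tgt.card ≤ (∑ i ∈ range (K + J + 1), ((K + 1) * N).choose i) * 2 ^ R := by
    simp only [tgt, card_product, card_range]
    apply Nat.mul_le_mul_right
    refine (card_small_subsets T (K + J)).trans (sum_le_sum fun i _ => ?_)
    exact Nat.choose_le_choose i hTN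
  have hfib : ∀ c ∈ tgt, (s.filter fun q => sig q = c).card * 2 ^ x ≤ 2 ^ (N - R) := by
    rintro ⟨S, r⟩ _
    rcases (s.filter fun q => sig q = (S, r)).eq_empty_or_nonempty with he | ⟨q₁, hq₁⟩
    · rw [he]; simp
    rw [mem_filter] at hq₁
    have hsig : ∀ q ∈ s.filter (fun q => sig q = (S, r)), q ∈ s ∧ sums q (μ q) T = S ∧
        q % 2 ^ R = r := by
      intro q hq
      rw [mem_filter] at hq
      have h := hq.2
      simp only [sig, Prod.mk.injEq] at h
      exact ⟨hq.1, h.1, h.2⟩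
    have hs1 := hsig q₁ (mem_filter.2 hq₁)
    obtain ⟨n1, n2, n3, n4⟩ := hν q₁ hq₁.1
    refine (card_class (K := K) (N := N) (x := x) hK hN (R := R) (T := T) rfl rfl (ν q₁) n1
      (fun i => expo q₁ (μ q₁) i) (expo_zero _ _) ?_ r _ μ ?_).le
    · intro i hi1 _
      exact hi1.trans (le_expo (hs q₁ hq₁.1).1 (hμ q₁ hq₁.1).1 i)
    · intro q hq
      obtain ⟨b1, b2, b3⟩ := hsig q hq
      obtain ⟨c1, c2, c3, _⟩ := hs q b1
      have d1 := (hμ q b1).1
      have heq : ∀ i, expo q₁ (μ q₁) i < T → expo q (μ q) i = expo q₁ (μ q₁) i := fun i hi =>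
        expo_eq_of_sums_eq (hs q₁ hq₁.1).1 c1 (hμ q₁ hq₁.1).1 d1 (hs1.2.1.trans b2.symm) i hi
      refine ⟨c1, c3, b3, ?_, fun i hi => heq i (n4 i hi), ?_⟩
      · refine (hμ q b1).2.1.trans_lt ?_
        rw [mul_comm, pow_mul]
        exact Nat.pow_lt_pow_left c3 (by omega)
      · by_contra hcon
        push Not at hcon
        have := expo_eq_of_sums_eq c1 (hs q₁ hq₁.1).1 d1 (hμ q₁ hq₁.1).1
          (b2.trans hs1.2.1.symm) (ν q₁) hcon
        omega
  rw [card_eq_sum_card_fiberwise hmaps, sum_mul]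
  refine (sum_le_sum hfib).trans ?_
  rw [sum_const, smul_eq_mul]
  calc tgt.card * 2 ^ (N - R) ≤
        (∑ i ∈ range (K + J + 1), ((K + 1) * N).choose i) * 2 ^ R * 2 ^ (N - R) :=
          Nat.mul_le_mul_right _ hcard
    _ = (∑ i ∈ range (K + J + 1), ((K + 1) * N).choose i) * (2 ^ R * 2 ^ (N - R)) := by ring
    _ = _ := by
        rw [← pow_add]
        congr 2
        omega

end Pool.Agent.Lib.MP_d88d68_nt
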