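import Pool.Agent.Lib.MP_d88d68_nt.Start
import Pool.Agent.Lib.MP_d88d68_nt.Final

/-!
# Uniform expansion, final form
-/

namespace Pool.Agent.Lib.MP_d88d68_nt

open Finset

theorem sum_choose_le (n k a : ℕ) :
    (∑ i ∈ range (k + 1), (n.choose i : ℝ)) ≤ 2 ^ (a * k) * (1 / 2 ^ a + 1) ^ n := by
  have h1 : (∑ i ∈ range (k + 1), (n.choose i : ℝ)) ≤
      ∑ i ∈ range (k + 1), 2 ^ (a * k) * ((1 / 2 ^ a) ^ i * (n.choose i : ℝ)) := by
    refine sum_le_sum fun i hi => ?_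
    rw [mem_range] at hi
    have h2 : (1 : ℝ) ≤ 2 ^ (a * k) * (1 / 2 ^ a) ^ i := by
      rw [one_div, inv_pow, ← pow_mul, ← div_eq_mul_inv, le_div_iff₀ (by positivity), one_mul]
      exact pow_le_pow_right₀ (by norm_num) (Nat.mul_le_mul_left _ (by omega))
    rw [← mul_assoc]
    exact le_mul_of_one_le_left (Nat.cast_nonneg _) h2
  refine h1.trans ?_
  rw [← mul_sum]
  apply mul_le_mul_of_nonneg_left _ (by positivity)
  rw [add_pow]
  have h3 : ∑ i ∈ range (n + 1), ((1 : ℝ) / 2 ^ a) ^ i * 1 ^ (n - i) * (n.choose i : ℝ) =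
      ∑ i ∈ range (n + 1 + (k + 1)), (1 / 2 ^ a) ^ i * (n.choose i : ℝ) := by
    rw [sum_subset (range_subset_range.2 (show n + 1 ≤ n + 1 + (k + 1) by omega))]
    · exact sum_congr rfl fun i _ => by rw [one_pow, mul_one]
    · intro i _ hi
      rw [mem_range, not_lt] at hi
      rw [Nat.choose_eq_zero_of_lt (by omega)]
      simp
  rw [h3]
  apply sum_le_sum_of_subset_of_nonneg (range_subset_range.2 (by omega))
  intro i _ _
  positivity

theorem pow_le_rpow (n a : ℕ) : ((1 : ℝ) / 2 ^ a + 1) ^ n ≤ 2 ^ ((n : ℝ) * (2 / 2 ^ a)) := by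
  have h1 : (1 : ℝ) / 2 ^ a + 1 ≤ 2 ^ ((2 : ℝ) / 2 ^ a) := by
    refine (Real.add_one_le_exp _).trans ?_
    rw [Real.rpow_def_of_pos (by norm_num)]
    apply Real.exp_le_exp.2
    have h2 : (1 / 2 : ℝ) ≤ Real.log 2 := by linarith [Real.log_two_gt_d9]
    have h3 : (0 : ℝ) < 2 / 2 ^ a := by positivity
    calc (1 : ℝ) / 2 ^ a = 1 / 2 * (2 / 2 ^ a) := by ring
      _ ≤ Real.log 2 * (2 / 2 ^ a) := mul_le_mul_of_nonneg_right h2 h3.le
  calc ((1 : ℝ) / 2 ^ a + 1) ^ n ≤ (2 ^ ((2 : ℝ) / 2 ^ a)) ^ n :=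
        pow_le_pow_left₀ (by positivity) h1 n
    _ = _ := by rw [← Real.rpow_natCast, ← Real.rpow_mul (by norm_num), mul_comm]

/-- The dyadic block, real form. -/
theorem card_start_real {K J L : ℕ} (hK : 1 ≤ K) (s : Finset ℕ)
    (hs : ∀ q ∈ s, Odd q ∧ 2 ^ (L - 1) ≤ q ∧ q < 2 ^ L ∧
      ∃ m, Odd m ∧ m ≤ q ^ K ∧ ∃ j ≤ J, (C q)^[K + 1 + j] m ≤ q ^ j) :
    (s.card : ℝ) ≤ 32 * (∑ i ∈ range (K + J + 1), (((K + 1) * L).choose i : ℝ)) *
      2 ^ ((L : ℝ) * (1 - 1 / (12 * 16 ^ K))) := by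
  set D : ℕ := 12 * 16 ^ K with hD
  have hDpos : 0 < D := by positivity
  have hDr : ((D : ℕ) : ℝ) = 12 * 16 ^ K := by rw [hD]; push_cast; ring
  have hDr0 : (0 : ℝ) < (D : ℝ) := by exact_mod_cast hDpos
  have hexp : (L : ℝ) * (1 - 1 / (12 * 16 ^ K)) = L - L / D := by
    rw [← hDr]; field_simp
  rw [hexp]
  set B : ℕ := ∑ i ∈ range (K + J + 1), ((K + 1) * L).choose i with hB
  have hBr : (∑ i ∈ range (K + J + 1), (((K + 1) * L).choose i : ℝ)) = (B : ℝ) := by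
    rw [hB]; push_cast; rfl
  rw [hBr]
  have hone : (1 : ℝ) ≤ B := by
    have : 1 ≤ B := by
      rw [hB]
      refine le_trans ?_ (single_le_sum (f := fun i => ((K + 1) * L).choose i)
        (fun i _ => Nat.zero_le _) (mem_range.2 (show 0 < K + J + 1 by omega)))
      simp
    exact_mod_cast this
  by_cases hbig : D * 4 ≤ L
  · obtain ⟨x, hx⟩ : ∃ x, L / D = x + 4 := by
      have : 4 ≤ L / D := by
        rw [Nat.le_div_iff_mul_le hDpos]; linarith
      exact ⟨L / D - 4, by omega⟩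
    have h1 : 12 * 16 ^ K * (x + 4) ≤ L := by
      rw [← hD, ← hx]; exact Nat.mul_div_le _ _
    have h2 := card_start_block hK h1 s hs
    have h3 : (L : ℝ) / D < x + 5 := by
      rw [div_lt_iff₀ hDr0]
      have := Nat.lt_mul_div_succ L hDpos
      rw [hx] at this
      have h4 : (L : ℝ) < (D : ℝ) * ((x + 4 + 1 : ℕ) : ℝ) := by exact_mod_cast this
      push_cast at h4
      linarith
    have h4 : (s.card : ℝ) * 2 ^ x ≤ (B : ℝ) * 2 ^ L := by
      exact_mod_cast h2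
    have h5 : (2 : ℝ) ^ L ≤ 32 * 2 ^ ((L : ℝ) - L / D) * 2 ^ x := by
      have e : (32 : ℝ) * 2 ^ ((L : ℝ) - L / D) * 2 ^ x = 2 ^ ((5 : ℝ) + (L - L / D) + x) := by
        rw [Real.rpow_add (by norm_num), Real.rpow_add (by norm_num), Real.rpow_natCast]
        norm_num
      rw [e, ← Real.rpow_natCast]
      apply Real.rpow_le_rpow_of_exponent_le (by norm_num)
      linarith
    have hx0 : (0 : ℝ) < 2 ^ x := by positivity
    refine le_of_mul_le_mul_right (h4.trans ?_) hx0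
    calc (B : ℝ) * 2 ^ L ≤ B * (32 * 2 ^ ((L : ℝ) - L / D) * 2 ^ x) :=
          mul_le_mul_of_nonneg_left h5 (by positivity)
      _ = _ := by ring
  · push Not at hbig
    have h1 : (s.card : ℝ) ≤ 2 ^ L := by
      have : s.card ≤ 2 ^ L := by
        have h2 : s ⊆ range (2 ^ L) := fun q hq => mem_range.2 (hs q hq).2.2.1
        simpa using card_le_card h2
      exact_mod_cast this
    have h3 : (L : ℝ) / D < 4 := by
      rw [div_lt_iff₀ hDr0]
      have : (L : ℝ) < ((D * 4 : ℕ) : ℝ) := by exact_mod_cast hbig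
      push_cast at this
      linarith
    have h5 : (2 : ℝ) ^ L ≤ 32 * 2 ^ ((L : ℝ) - L / D) := by
      have e : (32 : ℝ) * 2 ^ ((L : ℝ) - L / D) = 2 ^ ((5 : ℝ) + (L - L / D)) := by
        rw [Real.rpow_add (by norm_num)]
        norm_num
      rw [e, ← Real.rpow_natCast]
      apply Real.rpow_le_rpow_of_exponent_le (by norm_num)
      linarith
    refine h1.trans (h5.trans ?_)
    calc (32 : ℝ) * 2 ^ ((L : ℝ) - L / D) = 1 * (32 * 2 ^ ((L : ℝ) - L / D)) := by ring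
      _ ≤ B * (32 * 2 ^ ((L : ℝ) - L / D)) :=
          mul_le_mul_of_nonneg_right hone (by positivity)
      _ = _ := by ring

/-- Uniform expansion for almost all odd `q`, finite sets. -/
theorem card_start {K J N : ℕ} (hK : 1 ≤ K) (s : Finset ℕ)
    (hs : ∀ q ∈ s, q < 2 ^ N ∧ Odd q ∧
      ∃ m, Odd m ∧ m ≤ q ^ K ∧ ∃ j ≤ J, (C q)^[K + 1 + j] m ≤ q ^ j) :
    (s.card : ℝ) ≤ 32 * N * 2 ^ ((5 * K + 8) * (K + J)) *
      2 ^ ((N : ℝ) * (1 - 1 / 16 ^ (K + 1))) := by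
  classical
  have hmaps : ∀ q ∈ s, Nat.log 2 q + 1 ∈ Icc 1 N := by
    intro q hq
    obtain ⟨h1, h2, _⟩ := hs q hq
    rw [mem_Icc]
    refine ⟨Nat.le_add_left _ _, ?_⟩
    exact Nat.log_lt_of_lt_pow h2.pos.ne' h1
  rw [card_eq_sum_card_fiberwise hmaps]
  push_cast
  have hpos1 : (0 : ℝ) ≤ 1 - 1 / (12 * 16 ^ K) := by
    rw [sub_nonneg, div_le_one (by positivity)]
    have : (1 : ℝ) ≤ 16 ^ K := one_le_pow₀ (by norm_num)
    linarith
  set B : ℝ := ∑ i ∈ range (K + J + 1), (((K + 1) * N).choose i : ℝ) with hB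
  have hb : ∀ L ∈ Icc 1 N, ((s.filter fun q => Nat.log 2 q + 1 = L).card : ℝ) ≤
      32 * B * 2 ^ ((N : ℝ) * (1 - 1 / (12 * 16 ^ K))) := by
    intro L hL
    rw [mem_Icc] at hL
    have hLN : (L : ℝ) ≤ N := by exact_mod_cast hL.2
    refine (card_start_real (J := J) (L := L) hK (s.filter fun q => Nat.log 2 q + 1 = L) ?_).trans ?_
    · intro q hq
      rw [mem_filter] at hq
      obtain ⟨h1, h2, h3⟩ := hs q hq.1
      refine ⟨h2, ?_, ?_, h3⟩
      · have : L - 1 = Nat.log 2 q := by omega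
        rw [this]
        exact Nat.pow_log_le_self 2 h2.pos.ne'
      · rw [← hq.2]
        exact Nat.lt_pow_succ_log_self (by norm_num) q
    · have e1 : (∑ i ∈ range (K + J + 1), (((K + 1) * L).choose i : ℝ)) ≤ B := by
        rw [hB]
        refine sum_le_sum fun i _ => ?_
        exact_mod_cast Nat.choose_le_choose i (Nat.mul_le_mul_left (K + 1) hL.2)
      have e2 : (2 : ℝ) ^ ((L : ℝ) * (1 - 1 / (12 * 16 ^ K))) ≤
          2 ^ ((N : ℝ) * (1 - 1 / (12 * 16 ^ K))) := by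
        apply Real.rpow_le_rpow_of_exponent_le (by norm_num)
        exact mul_le_mul_of_nonneg_right hLN hpos1
      have hB0 : 0 ≤ B := by rw [hB]; positivity
      apply mul_le_mul _ e2 (by positivity) (by positivity)
      exact mul_le_mul_of_nonneg_left e1 (by positivity)
  refine (sum_le_sum hb).trans ?_
  rw [sum_const, nsmul_eq_mul, Nat.card_Icc]
  simp only [add_tsub_cancel_right]
  have hBle : B ≤ 2 ^ ((5 * K + 8) * (K + J)) * 2 ^ ((N : ℝ) * (1 / (48 * 16 ^ K))) := by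
    rw [hB]
    refine (sum_choose_le _ _ (5 * K + 8)).trans ?_
    apply mul_le_mul_of_nonneg_left _ (by positivity)
    refine (pow_le_rpow _ _).trans ?_
    apply Real.rpow_le_rpow_of_exponent_le (by norm_num)
    push_cast
    have hN0 : (0 : ℝ) ≤ N := Nat.cast_nonneg _
    have h1 : ((K : ℝ) + 1) * (2 / 2 ^ (5 * K + 8)) ≤ 1 / (48 * 16 ^ K) := by
      have e1 : (2 : ℝ) ^ (5 * K + 8) = 256 * 2 ^ K * 16 ^ K := by
        have : (16 : ℝ) ^ K = 2 ^ (4 * K) := by rw [pow_mul]; norm_num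
        rw [this]
        have e : 5 * K + 8 = 8 + K + 4 * K := by ring
        rw [e, pow_add, pow_add]
        norm_num
      have e2 : (K : ℝ) + 1 ≤ 2 ^ K := by
        have : K + 1 ≤ 2 ^ K := Nat.lt_two_pow_self
        exact_mod_cast this
      rw [e1, mul_div_assoc', div_le_div_iff₀ (by positivity) (by positivity)]
      have h16 : (0 : ℝ) < 16 ^ K := by positivity
      calc ((K : ℝ) + 1) * 2 * (48 * 16 ^ K) ≤ 2 ^ K * 2 * (48 * 16 ^ K) := by gcongr
        _ = 96 * (2 ^ K * 16 ^ K) := by ring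
        _ ≤ 256 * (2 ^ K * 16 ^ K) := by
            apply mul_le_mul_of_nonneg_right (by norm_num) (by positivity)
        _ = _ := by ring
    calc ((K : ℝ) + 1) * N * (2 / 2 ^ (5 * K + 8)) =
          N * (((K : ℝ) + 1) * (2 / 2 ^ (5 * K + 8))) := by ring
      _ ≤ _ := mul_le_mul_of_nonneg_left h1 hN0
  have hN0 : (0 : ℝ) ≤ N := Nat.cast_nonneg _
  calc (N : ℝ) * (32 * B * 2 ^ ((N : ℝ) * (1 - 1 / (12 * 16 ^ K)))) ≤
        N * (32 * (2 ^ ((5 * K + 8) * (K + J)) * 2 ^ ((N : ℝ) * (1 / (48 * 16 ^ K)))) *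
          2 ^ ((N : ℝ) * (1 - 1 / (12 * 16 ^ K)))) := by gcongr
    _ = 32 * N * 2 ^ ((5 * K + 8) * (K + J)) * (2 ^ ((N : ℝ) * (1 / (48 * 16 ^ K))) *
          2 ^ ((N : ℝ) * (1 - 1 / (12 * 16 ^ K)))) := by ring
    _ = _ := by
        rw [← Real.rpow_add (by norm_num)]
        congr 2
        have h16 : (0 : ℝ) < 16 ^ K := by positivity
        rw [pow_succ]
        field_simp
        ring

end Pool.Agent.Lib.MP_d88d68_nt
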